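import Mathlib
import Pool.Graph.R_seed8.Y902.FB.ExR

/-!
# Solutions, exponents and constants
-/

set_option autoImplicit false

namespace Pool.Agent.Helper4.PC

open Filter Topology

/-- `(x, y, z, p, q, r)` is a solution of the Fermat-Catalan equation -/
def Sol (x y z p q r : ℕ) : Prop :=
  0 < x ∧ 0 < y ∧ 0 < z ∧ Nat.gcd x (Nat.gcd y z) = 1 ∧ 0 < p ∧ 0 < q ∧ 0 < r ∧
    (1 : ℚ) / p + 1 / q + 1 / r ≤ 1 ∧ x ^ p + y ^ q = z ^ r

theorem Sol.coprimes {x y z p q r : ℕ} (h : Sol x y z p q r) :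
    Nat.Coprime x y ∧ Nat.Coprime x z ∧ Nat.Coprime y z := by
  obtain ⟨-, -, -, hg, hp, hq, hr, -, he⟩ := h
  have key : ∀ l : ℕ, l.Prime → ¬ (l ∣ x ∧ l ∣ y ∧ l ∣ z) := by
    rintro l hl ⟨h1, h2, h3⟩
    have h4 : l ∣ Nat.gcd x (Nat.gcd y z) := Nat.dvd_gcd h1 (Nat.dvd_gcd h2 h3)
    rw [hg] at h4
    exact hl.one_lt.ne' (Nat.dvd_one.1 h4)
  refine ⟨?_, ?_, ?_⟩
  · refine Nat.Coprime.symm (Nat.coprime_of_dvd fun l hl h1 h2 => key l hl ⟨h2, h1, ?_⟩)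
    have h3 : l ∣ z ^ r := he ▸ (Nat.dvd_add (h2.trans (dvd_pow_self x hp.ne'))
      (h1.trans (dvd_pow_self y hq.ne')))
    exact hl.dvd_of_dvd_pow h3
  · refine Nat.Coprime.symm (Nat.coprime_of_dvd fun l hl h1 h2 => key l hl ⟨h2, ?_, h1⟩)
    have h3 : l ∣ x ^ p + y ^ q := he ▸ (h1.trans (dvd_pow_self z hr.ne'))
    exact hl.dvd_of_dvd_pow ((Nat.dvd_add_right (h2.trans (dvd_pow_self x hp.ne'))).1 h3)
  · refine Nat.Coprime.symm (Nat.coprime_of_dvd fun l hl h1 h2 => key l hl ⟨?_, h2, h1⟩)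
    have h3 : l ∣ x ^ p + y ^ q := he ▸ (h1.trans (dvd_pow_self z hr.ne'))
    exact hl.dvd_of_dvd_pow ((Nat.dvd_add_left (h2.trans (dvd_pow_self y hq.ne'))).1 h3)

theorem two_le_of_sum {p q r : ℕ} (hp : 0 < p) (hq : 0 < q) (hr : 0 < r)
    (h : (1 : ℚ) / p + 1 / q + 1 / r ≤ 1) : 2 ≤ p := by
  by_contra hcon
  have h1 : p = 1 := by omega
  rw [h1] at h
  have h2 : (0 : ℚ) < 1 / q := by positivity
  have h3 : (0 : ℚ) < 1 / r := by positivity
  rw [Nat.cast_one, div_one] at h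
  linarith

theorem Sol.two_le {x y z p q r : ℕ} (h : Sol x y z p q r) : 2 ≤ p ∧ 2 ≤ q ∧ 2 ≤ r := by
  obtain ⟨-, -, -, -, hp, hq, hr, h1, -⟩ := h
  exact ⟨two_le_of_sum hp hq hr h1, two_le_of_sum hq hp hr (by linarith),
    two_le_of_sum hr hp hq (by linarith)⟩

theorem Sol.ineq {x y z p q r : ℕ} (h : Sol x y z p q r) :
    q * r + r * p + p * q ≤ p * q * r := by
  obtain ⟨-, -, -, -, hp, hq, hr, h1, -⟩ := h
  have hp' : (0 : ℚ) < p := by exact_mod_cast hp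
  have hq' : (0 : ℚ) < q := by exact_mod_cast hq
  have hr' : (0 : ℚ) < r := by exact_mod_cast hr
  have h2 : (q : ℚ) * r + r * p + p * q ≤ p * q * r := by
    have h3 := mul_le_mul_of_nonneg_right h1 (by positivity : (0 : ℚ) ≤ p * q * r)
    have h4 : ((1 : ℚ) / p + 1 / q + 1 / r) * (p * q * r) = q * r + r * p + p * q := by
      field_simp
    linarith
  exact_mod_cast h2

/-- the exponents of bases `≥ 2` -/
theorem exps : ∃ (C : ℝ) (κ : ℕ), 0 < C ∧ ∀ x y z p q r : ℕ, Sol x y z p q r →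
    (2 ≤ x → (p : ℝ) ≤ C * Real.log ((max x (max y z) : ℕ) : ℝ) ^ κ) ∧
    (2 ≤ y → (q : ℝ) ≤ C * Real.log ((max x (max y z) : ℕ) : ℝ) ^ κ) ∧
    (r : ℝ) ≤ C * Real.log ((max x (max y z) : ℕ) : ℝ) ^ κ := by
  obtain ⟨C, κ, hC, h⟩ := Pool.Agent.Y902.FB.exp_bound_real
  refine ⟨C, κ, hC, fun x y z p q r hs => ?_⟩
  obtain ⟨h1, h2, h3⟩ := hs.coprimes
  obtain ⟨k1, k2, k3⟩ := hs.two_le
  exact h x y z p q r hs.1 hs.2.1 hs.2.2.1 h1 h2 h3 k1 k2 k3 hs.2.2.2.2.2.2.2.2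

/-- finitely many value triples from bounded bases -/
theorem finite_of_bases (N : ℕ) : {v : ℕ × ℕ × ℕ | ∃ x y z p q r : ℕ, Sol x y z p q r ∧ x ≤ N ∧
    y ≤ N ∧ z ≤ N ∧ v = (x ^ p, y ^ q, z ^ r)}.Finite := by
  obtain ⟨C, κ, hC, h⟩ := exps
  obtain ⟨E, hE⟩ := exists_nat_ge (C * Real.log (N : ℝ) ^ κ)
  have key : {v : ℕ × ℕ × ℕ | ∃ x y z p q r : ℕ, Sol x y z p q r ∧ x ≤ N ∧
      y ≤ N ∧ z ≤ N ∧ v = (x ^ p, y ^ q, z ^ r)} ⊆
      Set.Iic (N ^ E) ×ˢ (Set.Iic (N ^ E) ×ˢ Set.Iic (N ^ E)) := by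
    rintro v ⟨x, y, z, p, q, r, hs, hx, hy, hz, rfl⟩
    obtain ⟨h1, h2, h3⟩ := h x y z p q r hs
    obtain ⟨x0, y0, z0, -⟩ := hs
    have hN : 1 ≤ N := by omega
    have hlog : C * Real.log ((max x (max y z) : ℕ) : ℝ) ^ κ ≤ E := by
      refine le_trans ?_ hE
      refine mul_le_mul_of_nonneg_left ?_ hC.le
      have hm : max x (max y z) ≤ N := max_le hx (max_le hy hz)
      have hm1 : 1 ≤ max x (max y z) := le_max_of_le_left x0
      refine pow_le_pow_left₀ (Real.log_natCast_nonneg _) ?_ κ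
      exact Real.log_le_log (by exact_mod_cast hm1) (by exact_mod_cast hm)
    have hb : ∀ {x p : ℕ}, 0 < x → x ≤ N → (2 ≤ x → p ≤ E) → x ^ p ≤ N ^ E := by
      intro x p h0 hxN hp
      rcases Nat.lt_or_ge x 2 with hx2 | hx2
      · have : x = 1 := by omega
        rw [this, one_pow]
        exact Nat.one_le_pow _ _ (by omega)
      · exact (Nat.pow_le_pow_left hxN p).trans (Nat.pow_le_pow_right hN (hp hx2))
    refine ⟨?_, ?_, ?_⟩
    · exact hb x0 hx fun hx2 => by exact_mod_cast (h1 hx2).trans hlog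
    · exact hb y0 hy fun hy2 => by exact_mod_cast (h2 hy2).trans hlog
    · exact hb z0 hz fun _ => by exact_mod_cast h3.trans hlog
  exact ((Set.finite_Iic _).prod ((Set.finite_Iic _).prod (Set.finite_Iic _))).subset key

/-- the exponents are at most a small power of `t` if the bases are at most a power of `t` -/
theorem exps_small (D c : ℕ) : ∃ T : ℕ, ∀ t : ℕ, T ≤ t → ∀ x y z p q r : ℕ, Sol x y z p q r →
    2 ≤ x → 2 ≤ y → x ≤ t ^ D → y ≤ t ^ D → z ≤ t ^ D → ∀ e : ℕ, (e = p ∨ e = q ∨ e = r) →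
      (c * e) ^ c ≤ t := by
  obtain ⟨C, κ, hC, h⟩ := exps
  have hlim : ∀ᶠ t : ℕ in atTop, (c * (C * (D * Real.log t) ^ κ)) ^ c ≤ (t : ℝ) := by
    have h1 := (Real.isLittleO_pow_log_id_atTop (n := κ * c)).bound
      (show (0 : ℝ) < 1 / ((c * (C * D ^ κ)) ^ c + 1) by positivity)
    have h2 := tendsto_natCast_atTop_atTop.eventually h1
    filter_upwards [h2, eventually_ge_atTop 1] with t ht ht1
    have ht1' : (1 : ℝ) ≤ t := by exact_mod_cast ht1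
    have hlog : 0 ≤ Real.log t := Real.log_nonneg ht1'
    simp only [id_eq] at ht
    rw [Real.norm_of_nonneg (by positivity), Real.norm_of_nonneg (by positivity)] at ht
    have e1 : (c * (C * (D * Real.log t) ^ κ)) ^ c = (c * (C * D ^ κ)) ^ c * Real.log t ^ (κ * c) := by
      rw [mul_pow (D : ℝ), pow_mul, ← mul_pow]
      ring
    rw [e1]
    have h3 : (0 : ℝ) ≤ (c * (C * D ^ κ)) ^ c := by positivity
    obtain ⟨U, hU⟩ : ∃ U : ℝ, U = (c * (C * D ^ κ)) ^ c := ⟨_, rfl⟩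
    rw [← hU] at ht h3 ⊢
    calc U * Real.log t ^ (κ * c) ≤ (U + 1) * (1 / (U + 1) * t) :=
          mul_le_mul (by linarith) ht (by positivity) (by linarith)
      _ = t := by field_simp
  obtain ⟨T, hT⟩ := eventually_atTop.mp hlim
  refine ⟨T, fun t ht x y z p q r hs hx2 hy2 hx hy hz e he => ?_⟩
  obtain ⟨h1, h2, h3⟩ := h x y z p q r hs
  have hm : ((max x (max y z) : ℕ) : ℝ) ≤ (t : ℝ) ^ D := by
    exact_mod_cast max_le hx (max_le hy hz)
  have hm1 : 1 ≤ max x (max y z) := le_max_of_le_left hs.1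
  have hlog : Real.log ((max x (max y z) : ℕ) : ℝ) ≤ D * Real.log t := by
    rw [← Real.log_pow]
    exact Real.log_le_log (by exact_mod_cast hm1) hm
  have hb : C * Real.log ((max x (max y z) : ℕ) : ℝ) ^ κ ≤ C * (D * Real.log t) ^ κ :=
    mul_le_mul_of_nonneg_left (pow_le_pow_left₀ (Real.log_natCast_nonneg _) hlog κ) hC.le
  have he' : (e : ℝ) ≤ C * (D * Real.log t) ^ κ := by
    rcases he with rfl | rfl | rfl
    · exact (h1 hx2).trans hb
    · exact (h2 hy2).trans hb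
    · exact h3.trans hb
  have h4 : ((c * e : ℕ) : ℝ) ^ c ≤ t := by
    refine le_trans (pow_le_pow_left₀ (by positivity) ?_ c) (hT t ht)
    push_cast
    exact mul_le_mul_of_nonneg_left he' (by positivity)
  exact_mod_cast h4

end Pool.Agent.Helper4.PC
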