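import Mathlib

/-!
# The sum of the absolute values of the coefficients of an integer polynomial
-/

set_option autoImplicit false

namespace Pool.Agent.Helper4.PC

open Polynomial Finset

/-- the sum of the absolute values of the coefficients -/
noncomputable def l1 (P : ℤ[X]) : ℕ := P.sum fun _ a => a.natAbs

theorem l1_eq (P : ℤ[X]) {n : ℕ} (hn : P.natDegree < n) :
    l1 P = ∑ i ∈ range n, (P.coeff i).natAbs := by
  unfold l1
  exact sum_over_range' P (by simp) n hn

theorem l1_zero : l1 0 = 0 := by simp [l1]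

theorem l1_add_le (P Q : ℤ[X]) : l1 (P + Q) ≤ l1 P + l1 Q := by
  obtain ⟨n, hn⟩ : ∃ n, n = max P.natDegree Q.natDegree + 1 := ⟨_, rfl⟩
  have h1 : P.natDegree < n := by omega
  have h2 : Q.natDegree < n := by omega
  have h3 : (P + Q).natDegree < n := by
    have := natDegree_add_le P Q
    omega
  rw [l1_eq P h1, l1_eq Q h2, l1_eq _ h3, ← Finset.sum_add_distrib]
  refine Finset.sum_le_sum fun i _ => ?_
  rw [coeff_add]
  exact Int.natAbs_add_le _ _

theorem l1_neg (P : ℤ[X]) : l1 (-P) = l1 P := by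
  have h3 : (-P).natDegree < P.natDegree + 1 := by rw [natDegree_neg]; omega
  rw [l1_eq P (Nat.lt_succ_self _), l1_eq _ h3]
  refine Finset.sum_congr rfl fun i _ => ?_
  rw [coeff_neg, Int.natAbs_neg]

theorem l1_sub_le (P Q : ℤ[X]) : l1 (P - Q) ≤ l1 P + l1 Q := by
  rw [sub_eq_add_neg]
  refine (l1_add_le _ _).trans ?_
  rw [l1_neg]

theorem l1_sum_le {ι : Type*} (s : Finset ι) (f : ι → ℤ[X]) :
    l1 (∑ i ∈ s, f i) ≤ ∑ i ∈ s, l1 (f i) := by
  classical
  induction s using Finset.induction_on with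
  | empty => simp [l1_zero]
  | insert a s ha ih =>
    rw [Finset.sum_insert ha, Finset.sum_insert ha]
    exact (l1_add_le _ _).trans (Nat.add_le_add_left ih _)

theorem coeff_le_l1 (P : ℤ[X]) (i : ℕ) : (P.coeff i).natAbs ≤ l1 P := by
  rw [l1_eq P (n := max P.natDegree i + 1) (by omega)]
  exact Finset.single_le_sum (f := fun i => (P.coeff i).natAbs) (fun _ _ => Nat.zero_le _)
    (by rw [mem_range]; omega)

theorem l1_pos {P : ℤ[X]} (h : P ≠ 0) : 1 ≤ l1 P := by
  have h1 : P.leadingCoeff ≠ 0 := leadingCoeff_ne_zero.mpr h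
  have h2 := coeff_le_l1 P P.natDegree
  have h3 : 0 < (P.coeff P.natDegree).natAbs := Int.natAbs_pos.mpr h1
  omega

theorem l1_X_pow_mul (i : ℕ) (P : ℤ[X]) : l1 (X ^ i * P) = l1 P := by
  have h : (X ^ i * P).natDegree < i + (P.natDegree + 1) := by
    have := natDegree_mul_le (p := X ^ i) (q := P)
    rw [natDegree_X_pow] at this
    omega
  rw [l1_eq _ h, l1_eq P (Nat.lt_succ_self _), Finset.sum_range_add]
  have h0 : ∑ x ∈ range i, ((X ^ i * P).coeff x).natAbs = 0 := by
    refine Finset.sum_eq_zero fun x hx => ?_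
    rw [mem_range] at hx
    rw [coeff_X_pow_mul', if_neg (by omega)]
    rfl
  rw [h0, zero_add]
  refine Finset.sum_congr rfl fun x _ => ?_
  rw [add_comm i x, coeff_X_pow_mul]

theorem l1_C_mul (a : ℤ) (P : ℤ[X]) : l1 (C a * P) = a.natAbs * l1 P := by
  have h : (C a * P).natDegree < P.natDegree + 1 := by
    have := natDegree_C_mul_le a P
    omega
  rw [l1_eq _ h, l1_eq P (Nat.lt_succ_self _), Finset.mul_sum]
  refine Finset.sum_congr rfl fun x _ => ?_
  rw [coeff_C_mul, Int.natAbs_mul]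

theorem l1_mul_le (P Q : ℤ[X]) : l1 (P * Q) ≤ l1 P * l1 Q := by
  have h : P * Q = ∑ i ∈ range (P.natDegree + 1), C (P.coeff i) * (X ^ i * Q) := by
    conv_lhs => rw [P.as_sum_range_C_mul_X_pow]
    rw [Finset.sum_mul]
    refine Finset.sum_congr rfl fun i _ => ?_
    ring
  rw [h]
  refine (l1_sum_le _ _).trans ?_
  simp only [l1_C_mul, l1_X_pow_mul]
  rw [← Finset.sum_mul, ← l1_eq P (Nat.lt_succ_self _)]

theorem l1_one : l1 1 = 1 := by
  rw [l1_eq (1 : ℤ[X]) (n := 1) (by simp)]
  simp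

theorem l1_pow_le (P : ℤ[X]) (n : ℕ) : l1 (P ^ n) ≤ l1 P ^ n := by
  induction n with
  | zero => simp [l1_one]
  | succ n ih =>
    rw [pow_succ, pow_succ]
    exact (l1_mul_le _ _).trans (Nat.mul_le_mul_right _ ih)

theorem l1_derivative_le (P : ℤ[X]) : l1 (derivative P) ≤ P.natDegree * l1 P := by
  rcases Nat.eq_zero_or_pos P.natDegree with h0 | h0
  · have : derivative P = 0 := by
      rw [eq_C_of_natDegree_eq_zero h0, derivative_C]
    rw [this, l1_zero]
    exact Nat.zero_le _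
  have h : (derivative P).natDegree < P.natDegree := natDegree_derivative_lt (by omega)
  rw [l1_eq _ h, l1_eq P (Nat.lt_succ_self _), Finset.sum_range_succ', mul_add, Finset.mul_sum]
  refine (Finset.sum_le_sum fun i hi => ?_).trans (Nat.le_add_right _ _)
  rw [mem_range] at hi
  rw [coeff_derivative, Int.natAbs_mul, mul_comm]
  refine Nat.mul_le_mul_right _ ?_
  have : ((i : ℤ) + 1).natAbs = i + 1 := by omega
  omega

theorem natAbs_eval_le (P : ℤ[X]) {t : ℤ} {T D : ℕ} (hT : 1 ≤ T) (ht : t.natAbs ≤ T)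
    (hD : P.natDegree ≤ D) : (P.eval t).natAbs ≤ l1 P * T ^ D := by
  rw [l1_eq P (n := D + 1) (by omega), eval_eq_sum_range' (n := D + 1) (by omega), Finset.sum_mul]
  have h : ∀ (s : Finset ℕ) (f : ℕ → ℤ), (∑ i ∈ s, f i).natAbs ≤ ∑ i ∈ s, (f i).natAbs := by
    intro s f
    classical
    induction s using Finset.induction_on with
    | empty => simp
    | insert a s ha ih =>
      rw [Finset.sum_insert ha, Finset.sum_insert ha]
      exact (Int.natAbs_add_le _ _).trans (Nat.add_le_add_left ih _)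
  refine (h _ _).trans (Finset.sum_le_sum fun i hi => ?_)
  rw [mem_range] at hi
  rw [Int.natAbs_mul, Int.natAbs_pow]
  refine Nat.mul_le_mul_left _ ?_
  exact (Nat.pow_le_pow_left ht i).trans (Nat.pow_le_pow_right hT (by omega))

theorem l1_le_of_coeff {P : ℤ[X]} {K B : ℕ} (hK : P.natDegree ≤ K)
    (h : ∀ i, (P.coeff i).natAbs ≤ B) : l1 P ≤ (K + 1) * B := by
  rw [l1_eq P (n := K + 1) (by omega)]
  refine (Finset.sum_le_sum fun i _ => h i).trans ?_
  rw [Finset.sum_const, card_range, smul_eq_mul]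

end Pool.Agent.Helper4.PC
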