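import Mathlib
import Pool.Agent.Helper4.PC.Norm

/-!
# The differential operator `G H d/dX` and its action on multiples of powers
-/

set_option autoImplicit false

namespace Pool.Agent.Helper4.PC

open Polynomial Finset

/-- `G H d/dX` -/
noncomputable def th (G H : ℤ[X]) (P : ℤ[X]) : ℤ[X] := G * H * derivative P

/-- the action on the cofactor of `G ^ q` -/
noncomputable def st (G H : ℤ[X]) (q : ℕ) (A : ℤ[X]) : ℤ[X] :=
  G * H * derivative A + C (q : ℤ) * derivative G * H * A

theorem st_mul (G H A : ℤ[X]) {q : ℕ} (hq : 0 < q) : st G H q A * G ^ q = th G H (A * G ^ q) := by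
  obtain ⟨q, rfl⟩ : ∃ q', q = q' + 1 := ⟨q - 1, by omega⟩
  rw [st, th, derivative_mul, derivative_pow_succ, pow_succ]
  push_cast
  ring

theorem th_comm (G H P : ℤ[X]) : th G H P = th H G P := by
  rw [th, th]; ring

theorem st_iter (G H A : ℤ[X]) {q : ℕ} (hq : 0 < q) (j : ℕ) :
    ((st G H q)^[j] A) * G ^ q = (th G H)^[j] (A * G ^ q) := by
  induction j with
  | zero => rfl
  | succ j ih => rw [Function.iterate_succ_apply', Function.iterate_succ_apply', st_mul _ _ _ hq, ih]

theorem th_sub (G H P Q : ℤ[X]) : th G H (P - Q) = th G H P - th G H Q := by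
  rw [th, th, th, derivative_sub]; ring

theorem th_add (G H P Q : ℤ[X]) : th G H (P + Q) = th G H P + th G H Q := by
  rw [th, th, th, derivative_add]; ring

theorem th_C_mul (G H P : ℤ[X]) (c : ℤ) : th G H (C c * P) = C c * th G H P := by
  rw [th, th, derivative_C_mul]; ring

theorem th_iter_sub (G H P Q : ℤ[X]) (j : ℕ) :
    (th G H)^[j] (P - Q) = (th G H)^[j] P - (th G H)^[j] Q := by
  induction j with
  | zero => rfl
  | succ j ih => rw [Function.iterate_succ_apply', Function.iterate_succ_apply',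
      Function.iterate_succ_apply', ih, th_sub]

theorem th_iter_add (G H P Q : ℤ[X]) (j : ℕ) :
    (th G H)^[j] (P + Q) = (th G H)^[j] P + (th G H)^[j] Q := by
  induction j with
  | zero => rfl
  | succ j ih => rw [Function.iterate_succ_apply', Function.iterate_succ_apply',
      Function.iterate_succ_apply', ih, th_add]

theorem th_iter_C_mul (G H P : ℤ[X]) (c : ℤ) (j : ℕ) :
    (th G H)^[j] (C c * P) = C c * (th G H)^[j] P := by
  induction j with
  | zero => rfl
  | succ j ih => rw [Function.iterate_succ_apply', Function.iterate_succ_apply', ih, th_C_mul]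

theorem th_iter_comm (G H P : ℤ[X]) (j : ℕ) : (th G H)^[j] P = (th H G)^[j] P := by
  have : th G H = th H G := by
    funext P
    exact th_comm G H P
  rw [this]

theorem pow_dvd_der {F P : ℤ[X]} {m : ℕ} (h : F ^ (m + 1) ∣ P) : F ^ m ∣ derivative P := by
  obtain ⟨Q, rfl⟩ := h
  rw [derivative_mul, derivative_pow_succ]
  refine dvd_add ?_ ?_
  · exact ⟨C ((m : ℤ) + 1) * derivative F * Q, by ring⟩
  · exact ⟨F * derivative Q, by rw [pow_succ]; ring⟩

theorem pow_dvd_th {F P : ℤ[X]} (G H : ℤ[X]) {m : ℕ} (h : F ^ m ∣ P) : F ^ (m - 1) ∣ th G H P := by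
  rcases Nat.eq_zero_or_pos m with h0 | h0
  · subst h0
    simp
  · obtain ⟨m, rfl⟩ : ∃ m', m = m' + 1 := ⟨m - 1, by omega⟩
    exact Dvd.dvd.mul_left (pow_dvd_der h) _

theorem pow_dvd_th_iter {F P : ℤ[X]} (G H : ℤ[X]) {m : ℕ} (h : F ^ m ∣ P) (j : ℕ) :
    F ^ (m - j) ∣ (th G H)^[j] P := by
  induction j with
  | zero => simpa using h
  | succ j ih =>
    rw [Function.iterate_succ_apply']
    have := pow_dvd_th G H ih
    rwa [Nat.sub_sub] at this

/-- the order of vanishing at `τ` -/
theorem th_iter_eval {G H : ℤ[X]} {τ : ℤ} (hG : G.eval τ ≠ 0) (hH : H.eval τ ≠ 0) (a : ℕ) :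
    ∀ P : ℤ[X], P.eval τ ≠ 0 → ((th G H)^[a] ((X - C τ) ^ a * P)).eval τ ≠ 0 := by
  induction a with
  | zero => intro P hP; simpa using hP
  | succ a ih =>
    intro P hP
    rw [Function.iterate_succ_apply]
    have h1 : th G H ((X - C τ) ^ (a + 1) * P) =
        (X - C τ) ^ a * (G * H * (C ((a : ℤ) + 1) * P + (X - C τ) * derivative P)) := by
      rw [th, derivative_mul, derivative_pow_succ, derivative_sub, derivative_X, derivative_C]
      rw [pow_succ]

      ring
    rw [h1]
    apply ih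
    simp only [eval_mul, eval_add, eval_sub, eval_X, eval_C, sub_self, zero_mul, add_zero]
    have : ((a : ℤ) + 1) ≠ 0 := by positivity
    exact mul_ne_zero (mul_ne_zero hG hH) (mul_ne_zero this hP)

theorem order {G H S : ℤ[X]} {τ : ℤ} {J : ℕ} (hG : G.eval τ ≠ 0) (hH : H.eval τ ≠ 0)
    (h : ∀ j ≤ J, ((th G H)^[j] S).eval τ = 0) : (X - C τ) ^ (J + 1) ∣ S := by
  by_cases hS : S = 0
  · rw [hS]; exact dvd_zero _
  obtain ⟨Q, hQ, hQ'⟩ := exists_eq_pow_rootMultiplicity_mul_and_not_dvd S hS τ
  have h1 : Q.eval τ ≠ 0 := by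
    intro h0
    exact hQ' (dvd_iff_isRoot.mpr h0)
  have h2 := th_iter_eval hG hH (rootMultiplicity τ S) Q h1
  rw [← hQ] at h2
  have h3 : J + 1 ≤ rootMultiplicity τ S := by
    by_contra hcon
    exact h2 (h _ (by omega))
  exact (pow_dvd_pow _ h3).trans (pow_rootMultiplicity_dvd S τ)

theorem natDegree_st (G H A : ℤ[X]) (q : ℕ) :
    (st G H q A).natDegree ≤ A.natDegree + (G.natDegree + H.natDegree) := by
  have h1 : (G * H * derivative A).natDegree ≤ A.natDegree + (G.natDegree + H.natDegree) := by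
    have a1 := natDegree_mul_le (p := G * H) (q := derivative A)
    have a2 := natDegree_mul_le (p := G) (q := H)
    have a3 := natDegree_derivative_le A
    omega
  have h2 : (C (q : ℤ) * derivative G * H * A).natDegree ≤
      A.natDegree + (G.natDegree + H.natDegree) := by
    have a1 := natDegree_mul_le (p := C (q : ℤ) * derivative G * H) (q := A)
    have a2 := natDegree_mul_le (p := C (q : ℤ) * derivative G) (q := H)
    have a3 := natDegree_C_mul_le (q : ℤ) (derivative G)
    have a4 := natDegree_derivative_le G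
    omega
  exact (natDegree_add_le _ _).trans (max_le h1 h2)

theorem natDegree_st_iter (G H A : ℤ[X]) (q j : ℕ) :
    ((st G H q)^[j] A).natDegree ≤ A.natDegree + j * (G.natDegree + H.natDegree) := by
  induction j with
  | zero => simp
  | succ j ih =>
    rw [Function.iterate_succ_apply']
    refine (natDegree_st G H _ q).trans ?_
    rw [Nat.succ_mul]
    omega

theorem l1_st (G H A : ℤ[X]) (q : ℕ) :
    l1 (st G H q A) ≤ l1 G * l1 H * (A.natDegree + q * G.natDegree) * l1 A := by
  have h1 : l1 (G * H * derivative A) ≤ l1 G * l1 H * (A.natDegree * l1 A) :=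
    (l1_mul_le _ _).trans (Nat.mul_le_mul (l1_mul_le _ _) (l1_derivative_le A))
  have h2 : l1 (C (q : ℤ) * derivative G * H * A) ≤ q * (G.natDegree * l1 G) * l1 H * l1 A := by
    refine (l1_mul_le _ _).trans (Nat.mul_le_mul_right _ ?_)
    refine (l1_mul_le _ _).trans (Nat.mul_le_mul_right _ ?_)
    rw [l1_C_mul, Int.natAbs_natCast]
    exact Nat.mul_le_mul_left _ (l1_derivative_le G)
  refine (l1_add_le _ _).trans ((Nat.add_le_add h1 h2).trans (le_of_eq ?_))
  ring

theorem l1_st_iter (G H A : ℤ[X]) {q D Y : ℕ} (j : ℕ)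
    (hD : ∀ i ≤ j, ((st G H q)^[i] A).natDegree ≤ D) (hY : l1 G * l1 H * (D + q * G.natDegree) ≤ Y) :
    l1 ((st G H q)^[j] A) ≤ Y ^ j * l1 A := by
  induction j with
  | zero => simp
  | succ j ih =>
    rw [Function.iterate_succ_apply']
    refine (l1_st G H _ q).trans ?_
    have h1 := hD j (Nat.le_succ j)
    have h2 : l1 G * l1 H * (((st G H q)^[j] A).natDegree + q * G.natDegree) ≤ Y :=
      (Nat.mul_le_mul_left _ (by omega)).trans hY
    have h3 := ih fun i hi => hD i (by omega)
    calc _ ≤ Y * (Y ^ j * l1 A) := Nat.mul_le_mul h2 h3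
      _ = Y ^ (j + 1) * l1 A := by rw [pow_succ]; ring

end Pool.Agent.Helper4.PC
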