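import Mathlib
import Pool.Agent.Helper4.PC.Norm

/-!
# Small expansions modulo the power of a monic polynomial
-/

set_option autoImplicit false

namespace Pool.Agent.Helper4.PC

open Polynomial Finset

/-- `P` is congruent modulo `F ^ m` to a combination of the polynomials `X ^ s F ^ j`, `j < m`,
`s < deg F`, with coefficients whose absolute values have the sum at most `b` -/
def Rep (F : ℤ[X]) (m : ℕ) (P : ℤ[X]) (b : ℕ) : Prop :=
  ∃ c : Fin m × Fin F.natDegree → ℤ,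
    F ^ m ∣ P - ∑ e, C (c e) * (X ^ (e.2 : ℕ) * F ^ (e.1 : ℕ)) ∧ ∑ e, (c e).natAbs ≤ b

variable {F : ℤ[X]} {m : ℕ}

theorem Rep.mono {P : ℤ[X]} {b b' : ℕ} (h : Rep F m P b) (hb : b ≤ b') : Rep F m P b' := by
  obtain ⟨c, h1, h2⟩ := h
  exact ⟨c, h1, h2.trans hb⟩

theorem Rep.congr {P Q : ℤ[X]} {b : ℕ} (h : Rep F m P b) (hPQ : F ^ m ∣ Q - P) : Rep F m Q b := by
  obtain ⟨c, h1, h2⟩ := h
  refine ⟨c, ?_, h2⟩
  have : Q - ∑ e, C (c e) * (X ^ (e.2 : ℕ) * F ^ (e.1 : ℕ)) =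
      (Q - P) + (P - ∑ e, C (c e) * (X ^ (e.2 : ℕ) * F ^ (e.1 : ℕ))) := by ring
  rw [this]
  exact dvd_add hPQ h1

theorem rep_zero : Rep F m 0 0 := by
  refine ⟨fun _ => 0, ?_, ?_⟩
  · simp
  · simp

theorem Rep.add {P Q : ℤ[X]} {b b' : ℕ} (h : Rep F m P b) (k : Rep F m Q b') :
    Rep F m (P + Q) (b + b') := by
  obtain ⟨c, h1, h2⟩ := h
  obtain ⟨d, k1, k2⟩ := k
  refine ⟨fun e => c e + d e, ?_, ?_⟩
  · have : P + Q - ∑ e, C (c e + d e) * (X ^ (e.2 : ℕ) * F ^ (e.1 : ℕ)) =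
        (P - ∑ e, C (c e) * (X ^ (e.2 : ℕ) * F ^ (e.1 : ℕ))) +
        (Q - ∑ e, C (d e) * (X ^ (e.2 : ℕ) * F ^ (e.1 : ℕ))) := by
      have : ∑ e, C (c e + d e) * (X ^ (e.2 : ℕ) * F ^ (e.1 : ℕ)) =
          ∑ e, C (c e) * (X ^ (e.2 : ℕ) * F ^ (e.1 : ℕ)) +
          ∑ e, C (d e) * (X ^ (e.2 : ℕ) * F ^ (e.1 : ℕ)) := by
        rw [← Finset.sum_add_distrib]
        refine Finset.sum_congr rfl fun e _ => ?_
        rw [C_add, add_mul]
      rw [this]
      ring
    rw [this]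
    exact dvd_add h1 k1
  · refine le_trans ?_ (Nat.add_le_add h2 k2)
    rw [← Finset.sum_add_distrib]
    exact Finset.sum_le_sum fun e _ => Int.natAbs_add_le _ _

theorem Rep.C_mul {P : ℤ[X]} {b : ℕ} (h : Rep F m P b) (a : ℤ) :
    Rep F m (C a * P) (a.natAbs * b) := by
  obtain ⟨c, h1, h2⟩ := h
  refine ⟨fun e => a * c e, ?_, ?_⟩
  · have : C a * P - ∑ e, C (a * c e) * (X ^ (e.2 : ℕ) * F ^ (e.1 : ℕ)) =
        C a * (P - ∑ e, C (c e) * (X ^ (e.2 : ℕ) * F ^ (e.1 : ℕ))) := by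
      rw [mul_sub, Finset.mul_sum]
      congr 1
      refine Finset.sum_congr rfl fun e _ => ?_
      rw [Polynomial.C_mul, mul_assoc]
    rw [this]
    exact Dvd.dvd.mul_left h1 _
  · simp only [Int.natAbs_mul]
    rw [← Finset.mul_sum]
    exact Nat.mul_le_mul_left _ h2

theorem rep_sum {ι : Type*} (s : Finset ι) (f : ι → ℤ[X]) (b : ι → ℕ)
    (h : ∀ i ∈ s, Rep F m (f i) (b i)) : Rep F m (∑ i ∈ s, f i) (∑ i ∈ s, b i) := by
  classical
  induction s using Finset.induction_on with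
  | empty => simpa using rep_zero
  | insert a s ha ih =>
    rw [Finset.sum_insert ha, Finset.sum_insert ha]
    exact (h a (Finset.mem_insert_self a s)).add
      (ih fun i hi => h i (Finset.mem_insert_of_mem hi))

theorem rep_basis {s j : ℕ} (hs : s < F.natDegree) (hj : j < m) : Rep F m (X ^ s * F ^ j) 1 := by
  classical
  refine ⟨fun e => if e = (⟨j, hj⟩, ⟨s, hs⟩) then 1 else 0, ?_, ?_⟩
  · rw [Finset.sum_eq_single (⟨j, hj⟩, ⟨s, hs⟩)]
    · simp
    · intro e _ he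
      simp [he]
    · intro h
      exact absurd (Finset.mem_univ _) h
  · rw [Finset.sum_eq_single (⟨j, hj⟩, ⟨s, hs⟩)]
    · simp
    · intro e _ he
      simp [he]
    · intro h
      exact absurd (Finset.mem_univ _) h

/-- `X ^ d F ^ j`, `d = deg F` -/
theorem rep_top (hF : F.Monic) (hd : 0 < F.natDegree) {j : ℕ} (hj : j < m) :
    Rep F m (X ^ F.natDegree * F ^ j) (1 + l1 F) := by
  have h1 : X ^ F.natDegree * F ^ j = F ^ (j + 1) +
      ∑ i ∈ range F.natDegree, C (-F.coeff i) * (X ^ i * F ^ j) := by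
    have h2 : F = X ^ F.natDegree + ∑ i ∈ range F.natDegree, C (F.coeff i) * X ^ i := by
      exact hF.as_sum
    have h3 : F ^ (j + 1) = F ^ j * F := pow_succ _ _
    have h4 : F ^ j * F = F ^ j * (X ^ F.natDegree + ∑ i ∈ range F.natDegree, C (F.coeff i) * X ^ i) :=
      congrArg (fun Q => F ^ j * Q) h2
    rw [h3, h4, mul_add, Finset.mul_sum]
    have h5 : ∑ i ∈ range F.natDegree, C (-F.coeff i) * (X ^ i * F ^ j) =
        -∑ i ∈ range F.natDegree, F ^ j * (C (F.coeff i) * X ^ i) := by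
      rw [← Finset.sum_neg_distrib]
      refine Finset.sum_congr rfl fun i _ => ?_
      rw [C_neg]
      ring
    rw [h5]
    ring
  have h6 : Rep F m (F ^ (j + 1)) 1 := by
    by_cases hj1 : j + 1 < m
    · have := rep_basis (F := F) hd hj1
      rwa [pow_zero, one_mul] at this
    · refine (rep_zero.mono (Nat.zero_le 1)).congr ?_
      rw [sub_zero]
      exact pow_dvd_pow _ (by omega)
  rw [h1]
  refine h6.add ?_
  have h7 : Rep F m (∑ i ∈ range F.natDegree, C (-F.coeff i) * (X ^ i * F ^ j))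
      (∑ i ∈ range F.natDegree, (-F.coeff i).natAbs * 1) := by
    refine rep_sum _ _ _ fun i hi => ?_
    rw [mem_range] at hi
    exact (rep_basis hi hj).C_mul _
  refine h7.mono ?_
  rw [l1_eq F (n := F.natDegree + 1) (Nat.lt_succ_self _), Finset.sum_range_succ]
  refine le_trans (Finset.sum_le_sum fun i _ => ?_) (Nat.le_add_right _ _)
  rw [Int.natAbs_neg, mul_one]

theorem Rep.X_mul (hF : F.Monic) (hd : 0 < F.natDegree) {P : ℤ[X]} {b : ℕ} (h : Rep F m P b) :
    Rep F m (X * P) ((1 + l1 F) * b) := by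
  obtain ⟨c, h1, h2⟩ := h
  have h3 : Rep F m (∑ e : Fin m × Fin F.natDegree, C (c e) * (X ^ ((e.2 : ℕ) + 1) * F ^ (e.1 : ℕ)))
      (∑ e : Fin m × Fin F.natDegree, (c e).natAbs * (1 + l1 F)) := by
    refine rep_sum _ _ _ fun e _ => Rep.C_mul ?_ _
    by_cases he : (e.2 : ℕ) + 1 < F.natDegree
    · exact (rep_basis he e.1.2).mono (by omega)
    · have : (e.2 : ℕ) + 1 = F.natDegree := by
        have := e.2.2
        omega
      rw [this]
      exact rep_top hF hd e.1.2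
  refine (h3.congr ?_).mono ?_
  · have h4 : X * P - ∑ e : Fin m × Fin F.natDegree, C (c e) * (X ^ ((e.2 : ℕ) + 1) * F ^ (e.1 : ℕ)) =
        X * (P - ∑ e, C (c e) * (X ^ (e.2 : ℕ) * F ^ (e.1 : ℕ))) := by
      rw [mul_sub, Finset.mul_sum]
      congr 1
      refine Finset.sum_congr rfl fun e _ => ?_
      rw [pow_succ]
      ring
    rw [h4]
    exact Dvd.dvd.mul_left h1 _
  · rw [← Finset.sum_mul, mul_comm]
    exact Nat.mul_le_mul_left _ h2

theorem Rep.X_pow_mul (hF : F.Monic) (hd : 0 < F.natDegree) {P : ℤ[X]} {b : ℕ} (h : Rep F m P b)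
    (i : ℕ) : Rep F m (X ^ i * P) ((1 + l1 F) ^ i * b) := by
  induction i with
  | zero => simpa using h
  | succ i ih =>
    have := ih.X_mul hF hd
    rw [← mul_assoc, ← mul_assoc] at this
    rw [pow_succ', pow_succ']
    exact this

theorem rep_one (hd : 0 < F.natDegree) (hm : 0 < m) : Rep F m 1 1 := by
  have := rep_basis (F := F) hd hm
  simpa using this

/-- every polynomial has a small expansion -/
theorem rep_poly (hF : F.Monic) (hd : 0 < F.natDegree) (hm : 0 < m) (P : ℤ[X]) {D : ℕ}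
    (hD : P.natDegree ≤ D) : Rep F m P (l1 P * (1 + l1 F) ^ D) := by
  have h : P = ∑ i ∈ range (P.natDegree + 1), C (P.coeff i) * (X ^ i * 1) := by
    conv_lhs => rw [P.as_sum_range_C_mul_X_pow]
    refine Finset.sum_congr rfl fun i _ => ?_
    rw [mul_one]
  have h1 : Rep F m P (∑ i ∈ range (P.natDegree + 1), (P.coeff i).natAbs * ((1 + l1 F) ^ i * 1)) := by
    conv => arg 3; rw [h]
    exact rep_sum _ _ _ fun i _ => ((rep_one hd hm).X_pow_mul hF hd i).C_mul _
  refine h1.mono ?_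
  rw [l1_eq P (Nat.lt_succ_self _), Finset.sum_mul]
  refine Finset.sum_le_sum fun i hi => Nat.mul_le_mul_left _ ?_
  rw [mem_range] at hi
  rw [mul_one]
  exact Nat.pow_le_pow_right (by omega) (by omega)

end Pool.Agent.Helper4.PC
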