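import Mathlib
import Pool.Agent.Helper4.PC.Rep

/-!
# Siegel's lemma for approximations modulo the power of a monic polynomial
-/

set_option autoImplicit false

namespace Pool.Agent.Helper4.PC

open Polynomial Finset Matrix

attribute [local instance] Matrix.seminormedAddCommGroup

/-- Siegel's lemma with a bound in natural numbers -/
theorem siegel_nat {α β : Type} [Fintype α] [Fintype β] (M : Matrix α β ℤ) {S e : ℕ} (hS : 1 ≤ S)
    (h0 : 0 < Fintype.card α) (h1 : Fintype.card α < Fintype.card β)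
    (he : Fintype.card α = e * (Fintype.card β - Fintype.card α)) (hM : ∀ i j, (M i j).natAbs ≤ S) :
    ∃ t : β → ℤ, t ≠ 0 ∧ M *ᵥ t = 0 ∧ ∀ i, (t i).natAbs ≤ (Fintype.card β * S) ^ e := by
  obtain ⟨t, ht0, htM, htn⟩ := Int.Matrix.exists_ne_zero_int_vec_norm_le M h1 h0
  refine ⟨t, ht0, htM, fun i => ?_⟩
  have hMn : ‖M‖ ≤ S := by
    rw [Matrix.norm_le_iff (by positivity)]
    intro i j
    rw [Int.norm_eq_abs]
    have := hM i j
    have h2 : ((M i j).natAbs : ℝ) ≤ S := by exact_mod_cast this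
    rwa [Nat.cast_natAbs, Int.cast_abs] at h2
  have hexp : ((Fintype.card α : ℕ) : ℝ) / ((Fintype.card β : ℕ) - (Fintype.card α : ℕ)) = (e : ℕ) := by
    have h2 : ((Fintype.card α : ℕ) : ℝ) = e * ((Fintype.card β : ℕ) - (Fintype.card α : ℕ)) := by
      rw [← Nat.cast_sub h1.le]
      exact_mod_cast he
    have h3 : ((Fintype.card β : ℕ) : ℝ) - (Fintype.card α : ℕ) ≠ 0 := by
      have : ((Fintype.card α : ℕ) : ℝ) < (Fintype.card β : ℕ) := by exact_mod_cast h1
      linarith
    rw [div_eq_iff h3]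
    exact h2
  rw [hexp, Real.rpow_natCast] at htn
  have h4 : ‖t i‖ ≤ (Fintype.card β * max 1 ‖M‖) ^ e := (norm_le_pi_norm t i).trans htn
  have h5 : max 1 ‖M‖ ≤ S := max_le (by exact_mod_cast hS) hMn
  have h6 : (Fintype.card β * max 1 ‖M‖) ^ e ≤ (Fintype.card β * (S : ℝ)) ^ e :=
    pow_le_pow_left₀ (by positivity) (mul_le_mul_of_nonneg_left h5 (by positivity)) e
  have h7 := h4.trans h6
  rw [Int.norm_eq_abs] at h7
  have h8 : ((t i).natAbs : ℝ) ≤ (Fintype.card β * (S : ℝ)) ^ e := by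
    rw [Nat.cast_natAbs, Int.cast_abs]
    exact h7
  exact_mod_cast h8

/-- If `2 n > m deg F` there are integer polynomials `A`, `B` of degree less than `n`, not both zero,
with small coefficients such that `F ^ m` divides `A P - B Q`. -/
theorem siegel {F P Q : ℤ[X]} {m n S e : ℕ} (hd : 0 < F.natDegree) (hm : 0 < m)
    (hn : m * F.natDegree < 2 * n) (he : m * F.natDegree = e * (2 * n - m * F.natDegree))
    (hS : 1 ≤ S) (hP : ∀ i < n, Rep F m (X ^ i * P) S) (hQ : ∀ i < n, Rep F m (X ^ i * Q) S) :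
    ∃ A B : ℤ[X], ¬ (A = 0 ∧ B = 0) ∧ A.natDegree < n ∧ B.natDegree < n ∧
      F ^ m ∣ A * P - B * Q ∧ (∀ i, (A.coeff i).natAbs ≤ (2 * n * S) ^ e) ∧
      (∀ i, (B.coeff i).natAbs ≤ (2 * n * S) ^ e) := by
  classical
  have hP' : ∀ i : Fin n, Rep F m (X ^ (i : ℕ) * P) S := fun i => hP i i.2
  have hQ' : ∀ i : Fin n, Rep F m (X ^ (i : ℕ) * Q) S := fun i => hQ i i.2
  choose c hc1 hc2 using hP'
  choose d hd1 hd2 using hQ'
  let M : Matrix (Fin m × Fin F.natDegree) (Fin n ⊕ Fin n) ℤ :=
    fun k i => Sum.elim (fun i => c i k) (fun i => -d i k) i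
  have hcard1 : Fintype.card (Fin m × Fin F.natDegree) = m * F.natDegree := by simp
  have hcard2 : Fintype.card (Fin n ⊕ Fin n) = 2 * n := by simp; ring
  obtain ⟨t, ht0, htM, htn⟩ := siegel_nat M hS (by rw [hcard1]; positivity)
    (by rw [hcard1, hcard2]; exact hn) (e := e) (by rw [hcard1, hcard2]; exact he) (by
      rintro k (i | i)
      · have h1 := Finset.single_le_sum (f := fun e => (c i e).natAbs) (fun _ _ => Nat.zero_le _)
          (Finset.mem_univ k)
        exact h1.trans (hc2 i)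
      · have h1 := Finset.single_le_sum (f := fun e => (d i e).natAbs) (fun _ _ => Nat.zero_le _)
          (Finset.mem_univ k)
        show (-d i k).natAbs ≤ S
        rw [Int.natAbs_neg]
        exact h1.trans (hd2 i))
  rw [hcard2] at htn
  have hn0 : 0 < n := by omega
  have hcoeff : ∀ (f : Fin n → ℤ) (k : ℕ), (∑ i : Fin n, C (f i) * X ^ (i : ℕ)).coeff k =
      if h : k < n then f ⟨k, h⟩ else 0 := by
    intro f k
    rw [finsetSum_coeff]
    simp only [coeff_C_mul, coeff_X_pow, mul_ite, mul_one, mul_zero]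
    split_ifs with h
    · rw [Finset.sum_eq_single ⟨k, h⟩]
      · simp
      · intro i _ hi
        rw [if_neg]
        intro hk
        apply hi
        ext
        exact hk.symm
      · intro h'
        exact absurd (Finset.mem_univ _) h'
    · refine Finset.sum_eq_zero fun i _ => ?_
      rw [if_neg]
      have := i.2
      omega
  have hdeg : ∀ f : Fin n → ℤ, (∑ i : Fin n, C (f i) * X ^ (i : ℕ)).natDegree < n := by
    intro f
    have : (∑ i : Fin n, C (f i) * X ^ (i : ℕ)).natDegree ≤ n - 1 := by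
      rw [natDegree_le_iff_coeff_eq_zero]
      intro N hN
      rw [hcoeff, dif_neg (by omega)]
    omega
  refine ⟨∑ i : Fin n, C (t (Sum.inl i)) * X ^ (i : ℕ), ∑ i : Fin n, C (t (Sum.inr i)) * X ^ (i : ℕ),
    ?_, hdeg _, hdeg _, ?_, ?_, ?_⟩
  · rintro ⟨h1, h2⟩
    apply ht0
    funext i
    rcases i with i | i
    · have := hcoeff (fun i => t (Sum.inl i)) i
      rw [h1, coeff_zero, dif_pos i.2] at this
      exact this.symm
    · have := hcoeff (fun i => t (Sum.inr i)) i
      rw [h2, coeff_zero, dif_pos i.2] at this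
      exact this.symm
  · -- the divisibility
    have hk : ∀ k, ∑ i : Fin n, t (Sum.inl i) * c i k - ∑ i : Fin n, t (Sum.inr i) * d i k = 0 := by
      intro k
      have h1 := congrFun htM k
      simp only [Matrix.mulVec, dotProduct, Fintype.sum_sum_type, Pi.zero_apply] at h1
      have h2 : ∑ i : Fin n, M k (Sum.inl i) * t (Sum.inl i) =
          ∑ i : Fin n, t (Sum.inl i) * c i k :=
        Finset.sum_congr rfl fun i _ => mul_comm _ _
      have h3 : ∑ i : Fin n, M k (Sum.inr i) * t (Sum.inr i) =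
          -∑ i : Fin n, t (Sum.inr i) * d i k := by
        rw [← Finset.sum_neg_distrib]
        refine Finset.sum_congr rfl fun i _ => ?_
        show (-d i k) * t (Sum.inr i) = _
        ring
      rw [h2, h3] at h1
      linarith
    have h1 : (∑ i : Fin n, C (t (Sum.inl i)) * X ^ (i : ℕ)) * P -
        (∑ i : Fin n, C (t (Sum.inr i)) * X ^ (i : ℕ)) * Q =
        (∑ i : Fin n, C (t (Sum.inl i)) * (X ^ (i : ℕ) * P -
          ∑ k, C (c i k) * (X ^ (k.2 : ℕ) * F ^ (k.1 : ℕ)))) -
        (∑ i : Fin n, C (t (Sum.inr i)) * (X ^ (i : ℕ) * Q -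
          ∑ k, C (d i k) * (X ^ (k.2 : ℕ) * F ^ (k.1 : ℕ)))) := by
      have h2 : ∀ (u : Fin n → ℤ) (v : Fin n → Fin m × Fin F.natDegree → ℤ),
          ∑ i : Fin n, C (u i) * ∑ k, C (v i k) * (X ^ (k.2 : ℕ) * F ^ (k.1 : ℕ)) =
          ∑ k, C (∑ i : Fin n, u i * v i k) * (X ^ (k.2 : ℕ) * F ^ (k.1 : ℕ)) := by
        intro u v
        simp only [Finset.mul_sum]
        rw [Finset.sum_comm]
        refine Finset.sum_congr rfl fun k _ => ?_
        rw [map_sum, Finset.sum_mul]
        refine Finset.sum_congr rfl fun i _ => ?_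
        rw [C_mul, mul_assoc]
      have h3 : ∑ k, C (∑ i : Fin n, t (Sum.inl i) * c i k) * (X ^ (k.2 : ℕ) * F ^ (k.1 : ℕ)) =
          ∑ k, C (∑ i : Fin n, t (Sum.inr i) * d i k) * (X ^ (k.2 : ℕ) * F ^ (k.1 : ℕ)) := by
        refine Finset.sum_congr rfl fun k _ => ?_
        have := hk k
        rw [sub_eq_zero] at this
        rw [this]
      simp only [mul_sub, Finset.sum_sub_distrib]
      rw [h2, h2, h3, Finset.sum_mul, Finset.sum_mul]
      simp only [mul_assoc]
      ring
    rw [h1]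
    refine dvd_sub ?_ ?_
    · exact Finset.dvd_sum fun i _ => Dvd.dvd.mul_left (hc1 i) _
    · exact Finset.dvd_sum fun i _ => Dvd.dvd.mul_left (hd1 i) _
  · intro k
    rw [hcoeff]
    split_ifs with h
    · exact htn _
    · simp
  · intro k
    rw [hcoeff]
    split_ifs with h
    · exact htn _
    · simp

end Pool.Agent.Helper4.PC
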