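import Mathlib

/-!
# The zero estimate
-/

set_option autoImplicit false

namespace Pool.Agent.Helper4.PC

open Polynomial Finset

variable {k : Type*} [Field k] [CharZero k]

/-- Proportional polynomials from a vanishing Wronskian. -/
theorem proportional {u v : k[X]} (hu : u ≠ 0) (hv : v ≠ 0)
    (h : u * derivative v = derivative u * v) : ∃ c : k, c ≠ 0 ∧ v = C c * u := by
  classical
  obtain ⟨g, hg⟩ : ∃ g, g = EuclideanDomain.gcd u v := ⟨_, rfl⟩
  have hgu : g ∣ u := by rw [hg]; exact EuclideanDomain.gcd_dvd_left u v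
  have hgv : g ∣ v := by rw [hg]; exact EuclideanDomain.gcd_dvd_right u v
  obtain ⟨u1, hu1⟩ := hgu
  obtain ⟨v1, hv1⟩ := hgv
  have hg0 : g ≠ 0 := by
    rintro h0
    rw [h0, zero_mul] at hu1
    exact hu hu1
  have hu10 : u1 ≠ 0 := by
    rintro h0
    rw [h0, mul_zero] at hu1
    exact hu hu1
  have hv10 : v1 ≠ 0 := by
    rintro h0
    rw [h0, mul_zero] at hv1
    exact hv hv1
  have hcop : IsCoprime u1 v1 := by
    have h1 : g = u * EuclideanDomain.gcdA u v + v * EuclideanDomain.gcdB u v := by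
      rw [hg]; exact EuclideanDomain.gcd_eq_gcd_ab u v
    refine ⟨EuclideanDomain.gcdA u v, EuclideanDomain.gcdB u v, ?_⟩
    apply mul_left_cancel₀ hg0
    rw [mul_one]
    calc g * (EuclideanDomain.gcdA u v * u1 + EuclideanDomain.gcdB u v * v1)
        = (g * u1) * EuclideanDomain.gcdA u v + (g * v1) * EuclideanDomain.gcdB u v := by ring
      _ = u * EuclideanDomain.gcdA u v + v * EuclideanDomain.gcdB u v := by rw [← hu1, ← hv1]
      _ = g := h1.symm
  have hw : wronskian u1 v1 = 0 := by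
    have h2 : g ^ 2 * wronskian u1 v1 = 0 := by
      rw [wronskian]
      have h3 : u * derivative v - derivative u * v = 0 := by rw [h, sub_self]
      rw [hu1, hv1, derivative_mul, derivative_mul] at h3
      linear_combination h3
    exact (mul_eq_zero.mp h2).resolve_left (pow_ne_zero 2 hg0)
  obtain ⟨h3, h4⟩ := hcop.wronskian_eq_zero_iff.mp hw
  have h5 := derivative_eq_zero.mp h3
  have h6 := derivative_eq_zero.mp h4
  rw [natDegree_eq_zero] at h5 h6
  obtain ⟨a, ha⟩ := h5
  obtain ⟨b, hb⟩ := h6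
  have ha0 : a ≠ 0 := by rintro rfl; rw [C_0] at ha; exact hu10 ha.symm
  have hb0 : b ≠ 0 := by rintro rfl; rw [C_0] at hb; exact hv10 hb.symm
  refine ⟨b / a, div_ne_zero hb0 ha0, ?_⟩
  rw [hv1, hu1, ← ha, ← hb]
  have : C b = C (b / a) * C a := by rw [← C_mul, div_mul_cancel₀ _ ha0]
  rw [this]
  ring

omit [CharZero k] in
theorem pow_dvd_derivative {F P : k[X]} {m : ℕ} (h : F ^ (m + 1) ∣ P) : F ^ m ∣ derivative P := by
  obtain ⟨Q, rfl⟩ := h
  rw [derivative_mul, derivative_pow_succ]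
  refine dvd_add ?_ ?_
  · exact ⟨C ((m : k) + 1) * derivative F * Q, by ring⟩
  · exact ⟨F * derivative Q, by rw [pow_succ]; ring⟩

/-- The zero estimate. -/
theorem zero_estimate {F G H A B : k[X]} (hFG : IsCoprime F G) (hFH : IsCoprime F H)
    (hGH : IsCoprime G H) {q r n M J : ℕ} (hq : 0 < q) (hr : 0 < r)
    (hA : A.natDegree < n) (hB : B.natDegree < n) (hF0 : F ≠ 0) (hG0 : G ≠ 0) (hH0 : H ≠ 0)
    (hdiv : F ^ (M + 1) ∣ A * G ^ q - B * H ^ r) {τ : k} (hFτ : F.eval τ ≠ 0)
    (hGτ : G.eval τ ≠ 0) (hHτ : H.eval τ ≠ 0) {c₁ c₂ : k} (hc₁ : c₁ ≠ 0)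
    (hS : (X - C τ) ^ (J + 1) ∣ C c₁ * (A * G ^ q) + C c₂ * (B * H ^ r))
    (hdeg : 2 * n + G.natDegree + H.natDegree ≤ F.natDegree * M + J + 1)
    (hbig : n ≤ q * G.natDegree ∨ n ≤ r * H.natDegree) (hM : n ≤ (M + 1) * F.natDegree) :
    A = 0 ∧ B = 0 := by
  -- if one of the polynomials vanishes, so does the other one
  have hpow : F ^ (M + 1) ≠ 0 := pow_ne_zero _ hF0
  have hdegM : (F ^ (M + 1)).natDegree = (M + 1) * F.natDegree := natDegree_pow _ _
  have hcase1 : A = 0 → B = 0 := by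
    intro h
    rw [h, zero_mul, zero_sub, dvd_neg] at hdiv
    have h1 : F ^ (M + 1) ∣ B :=
      (IsCoprime.pow hFH).dvd_of_dvd_mul_right hdiv
    by_contra hne
    have := natDegree_le_of_dvd h1 hne
    omega
  have hcase2 : B = 0 → A = 0 := by
    intro h
    rw [h, zero_mul, sub_zero] at hdiv
    have h1 : F ^ (M + 1) ∣ A :=
      (IsCoprime.pow hFG).dvd_of_dvd_mul_right hdiv
    by_contra hne
    have := natDegree_le_of_dvd h1 hne
    omega
  by_cases hA0 : A = 0
  · exact ⟨hA0, hcase1 hA0⟩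
  by_cases hB0 : B = 0
  · exact ⟨hcase2 hB0, hB0⟩
  exfalso
  obtain ⟨q, rfl⟩ : ∃ q', q = q' + 1 := ⟨q - 1, by omega⟩
  obtain ⟨r, rfl⟩ : ∃ r', r = r' + 1 := ⟨r - 1, by omega⟩
  obtain ⟨u, hu⟩ : ∃ u, u = A * G ^ (q + 1) := ⟨_, rfl⟩
  obtain ⟨v, hv⟩ : ∃ v, v = B * H ^ (r + 1) := ⟨_, rfl⟩
  have hu0 : u ≠ 0 := by rw [hu]; exact mul_ne_zero hA0 (pow_ne_zero _ hG0)
  have hv0 : v ≠ 0 := by rw [hv]; exact mul_ne_zero hB0 (pow_ne_zero _ hH0)
  obtain ⟨W, hW⟩ : ∃ W, W = u * derivative v - derivative u * v := ⟨_, rfl⟩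
  rw [← hu, ← hv] at hdiv hS
  have hW1 : F ^ M ∣ W := by
    have h1 := pow_dvd_derivative hdiv
    have h2 : F ^ M ∣ u - v := (pow_dvd_pow F (Nat.le_succ M)).trans hdiv
    have h3 : W = (u - v) * derivative v - derivative (u - v) * v := by
      rw [hW, derivative_sub]; ring
    rw [h3]
    exact dvd_sub (Dvd.dvd.mul_right h2 _) (Dvd.dvd.mul_right h1 _)
  have hW2 : (X - C τ) ^ J ∣ W := by
    have h1 := pow_dvd_derivative hS
    have h2 : (X - C τ) ^ J ∣ C c₁ * u + C c₂ * v := (pow_dvd_pow _ (Nat.le_succ J)).trans hS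
    have h3 : C c₁ * W = (C c₁ * u + C c₂ * v) * derivative v -
        derivative (C c₁ * u + C c₂ * v) * v := by
      rw [hW, derivative_add, derivative_C_mul, derivative_C_mul]; ring
    have h4 : (X - C τ) ^ J ∣ C c₁ * W := by
      rw [h3]
      exact dvd_sub (Dvd.dvd.mul_right h2 _) (Dvd.dvd.mul_right h1 _)
    have h5 : W = C c₁⁻¹ * (C c₁ * W) := by
      rw [← mul_assoc, ← C_mul, inv_mul_cancel₀ hc₁, C_1, one_mul]
    rw [h5]
    exact Dvd.dvd.mul_left h4 _
  obtain ⟨Δ, hΔ⟩ : ∃ Δ, Δ = A * G * (derivative B * H + C ((r : k) + 1) * B * derivative H) -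
      (derivative A * G + C ((q : k) + 1) * A * derivative G) * B * H := ⟨_, rfl⟩
  have hWΔ : W = G ^ q * H ^ r * Δ := by
    rw [hW, hu, hv, hΔ, derivative_mul, derivative_mul, derivative_pow_succ, derivative_pow_succ]
    ring
  have hcopF : IsCoprime F (G ^ q * H ^ r) := (hFG.pow_right).mul_right (hFH.pow_right)
  have hcopτ : IsCoprime (X - C τ) (G ^ q * H ^ r) := by
    refine (Polynomial.irreducible_X_sub_C τ).coprime_iff_not_dvd.mpr ?_
    rw [dvd_iff_isRoot, IsRoot, eval_mul, eval_pow, eval_pow]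
    exact mul_ne_zero (pow_ne_zero _ hGτ) (pow_ne_zero _ hHτ)
  have hFX : IsCoprime F (X - C τ) := by
    refine (IsCoprime.symm ?_)
    refine (Polynomial.irreducible_X_sub_C τ).coprime_iff_not_dvd.mpr ?_
    rw [dvd_iff_isRoot, IsRoot]
    exact hFτ
  have hd1 : F ^ M ∣ Δ := by
    rw [hWΔ] at hW1
    exact (hcopF.pow_left).dvd_of_dvd_mul_left hW1
  have hd2 : (X - C τ) ^ J ∣ Δ := by
    rw [hWΔ] at hW2
    exact (hcopτ.pow_left).dvd_of_dvd_mul_left hW2
  have hd3 : F ^ M * (X - C τ) ^ J ∣ Δ := (IsCoprime.pow hFX).mul_dvd hd1 hd2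
  have hn1 : 1 ≤ n := by omega
  have hΔdeg : Δ.natDegree ≤ 2 * (n - 1) + G.natDegree + H.natDegree := by
    have e1 : (A * G * (derivative B * H + C ((r : k) + 1) * B * derivative H)).natDegree ≤
        2 * (n - 1) + G.natDegree + H.natDegree := by
      have a1 := natDegree_mul_le (p := A * G) (q := derivative B * H + C ((r : k) + 1) * B * derivative H)
      have a2 := natDegree_mul_le (p := A) (q := G)
      have a3 := natDegree_add_le (derivative B * H) (C ((r : k) + 1) * B * derivative H)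
      have a4 := natDegree_mul_le (p := derivative B) (q := H)
      have a5 := natDegree_mul_le (p := C ((r : k) + 1) * B) (q := derivative H)
      have a6 := natDegree_C_mul_le ((r : k) + 1) B
      have a7 := natDegree_derivative_le B
      have a8 := natDegree_derivative_le H
      omega
    have e2 : ((derivative A * G + C ((q : k) + 1) * A * derivative G) * B * H).natDegree ≤
        2 * (n - 1) + G.natDegree + H.natDegree := by
      have a0 := natDegree_mul_le (p := (derivative A * G + C ((q : k) + 1) * A * derivative G) * B)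
        (q := H)
      have a1 := natDegree_mul_le (p := derivative A * G + C ((q : k) + 1) * A * derivative G) (q := B)
      have a3 := natDegree_add_le (derivative A * G) (C ((q : k) + 1) * A * derivative G)
      have a4 := natDegree_mul_le (p := derivative A) (q := G)
      have a5 := natDegree_mul_le (p := C ((q : k) + 1) * A) (q := derivative G)
      have a6 := natDegree_C_mul_le ((q : k) + 1) A
      have a7 := natDegree_derivative_le A
      have a8 := natDegree_derivative_le G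
      omega
    rw [hΔ]
    exact (natDegree_sub_le _ _).trans (max_le e1 e2)
  have hΔ0 : Δ = 0 := by
    by_contra hne
    have h1 := natDegree_le_of_dvd hd3 hne
    rw [natDegree_mul (pow_ne_zero _ hF0) (pow_ne_zero _ (X_sub_C_ne_zero τ)), natDegree_pow,
      natDegree_pow, natDegree_X_sub_C, mul_one] at h1
    have h2 : F.natDegree * M = M * F.natDegree := mul_comm _ _
    omega
  have hW0 : W = 0 := by rw [hWΔ, hΔ0, mul_zero]
  rw [hW, sub_eq_zero] at hW0
  obtain ⟨c, hc, hcu⟩ := proportional hu0 hv0 hW0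
  rw [hu, hv] at hcu
  rcases hbig with h1 | h1
  · -- `G ^ (q + 1)` divides `B`
    have h2 : G ^ (q + 1) ∣ B * H ^ (r + 1) := by
      rw [hcu]
      exact ⟨C c * A, by ring⟩
    have h3 : G ^ (q + 1) ∣ B := (IsCoprime.pow hGH).dvd_of_dvd_mul_right h2
    have h4 := natDegree_le_of_dvd h3 hB0
    rw [natDegree_pow] at h4
    omega
  · have h2 : H ^ (r + 1) ∣ A * G ^ (q + 1) := by
      have h3 : A * G ^ (q + 1) = C c⁻¹ * (B * H ^ (r + 1)) := by
        rw [hcu, ← mul_assoc, ← C_mul, inv_mul_cancel₀ hc, C_1, one_mul]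
      rw [h3]
      exact ⟨C c⁻¹ * B, by ring⟩
    have h3 : H ^ (r + 1) ∣ A := (IsCoprime.pow hGH.symm).dvd_of_dvd_mul_right h2
    have h4 := natDegree_le_of_dvd h3 hA0
    rw [natDegree_pow] at h4
    omega

end Pool.Agent.Helper4.PC
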