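import Mathlib
import Pool.Agent.Helper4.PC.Siegel
import Pool.Agent.Helper4.PC.Zero
import Pool.Agent.Helper4.PC.Oper

/-!
# The main estimate
-/

set_option autoImplicit false

namespace Pool.Agent.Helper4.PC

open Polynomial Finset

section arith

theorem ar_deg {K d w : ℕ} (hd1 : 1 ≤ d) (hdK : d ≤ K) (hw : 9 * K ≤ w) :
    ((32 * K + 1) * d * w + (2 * d * w + 3 * K) * (2 * K)) + 24 * K * w ≤
      d * (64 * K * w - (2 * d * w + 3 * K)) := by
  have h1 : d * d * w ≤ K * d * w := Nat.mul_le_mul_right _ (Nat.mul_le_mul_right _ hdK)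
  have h2 : d * w ≤ K * d * w := by
    rw [mul_assoc]
    exact Nat.le_mul_of_pos_left _ (by omega)
  have h3 : K * w ≤ K * d * w := Nat.mul_le_mul_right _ (Nat.le_mul_of_pos_right _ (by omega))
  have h4 : K * (9 * K) ≤ K * w := Nat.mul_le_mul_left _ hw
  have h5 : K * d ≤ K * K := Nat.mul_le_mul_left _ hdK
  have h6 : 2 * d * w + 3 * K ≤ 64 * K * w := by
    have : d * w ≤ K * w := Nat.mul_le_mul_right _ hdK
    have h7 : 2 * d * w = 2 * (d * w) := by ring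
    have h8 : 64 * K * w = 64 * (K * w) := by ring
    have h9 : K * (9 * K) = 9 * (K * K) := by ring
    have h10 : K ≤ K * K := Nat.le_mul_of_pos_left _ (by omega)
    omega
  rw [Nat.mul_sub]
  have e1 : d * (2 * d * w + 3 * K) = 2 * (d * d * w) + 3 * (K * d) := by ring
  have e2 : d * (64 * K * w) = 64 * (K * d * w) := by ring
  have e3 : (32 * K + 1) * d * w + (2 * d * w + 3 * K) * (2 * K) + 24 * K * w =
      36 * (K * d * w) + d * w + 6 * (K * K) + 24 * (K * w) := by ring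
  have e4 : K * (9 * K) = 9 * (K * K) := by ring
  rw [e1, e2, e3]
  omega

theorem ar_J {K d w : ℕ} (hd1 : 1 ≤ d) (hdK : d ≤ K) (hw : 9 * K ≤ w) :
    2 * d * w + 3 * K ≤ 3 * (K * w) := by
  have h1 : d * w ≤ K * w := Nat.mul_le_mul_right _ hdK
  have h2 : K * (9 * K) ≤ K * w := Nat.mul_le_mul_left _ hw
  have h3 : K ≤ K * K := Nat.le_mul_of_pos_left _ (by omega)
  have e1 : 2 * d * w = 2 * (d * w) := by ring
  have e4 : K * (9 * K) = 9 * (K * K) := by ring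
  omega

theorem ar_n {K d w : ℕ} (hd1 : 1 ≤ d) (hdK : d ≤ K) :
    (32 * K + 1) * d * w ≤ 33 * (K ^ 2 * w) := by
  have h1 : (32 * K + 1) * d ≤ (33 * K) * K := Nat.mul_le_mul (by omega) hdK
  calc (32 * K + 1) * d * w ≤ (33 * K) * K * w := Nat.mul_le_mul_right _ h1
    _ = _ := by ring

theorem ar_pow {K w a : ℕ} (hK : 1 ≤ K) (ha : a ≤ 5) : K ^ a * w ≤ K ^ 5 * w :=
  Nat.mul_le_mul_right _ (Nat.pow_le_pow_right hK ha)

theorem ar_pow4 {K w a : ℕ} (hK : 1 ≤ K) (ha : a ≤ 4) : K ^ a * w ≤ K ^ 4 * w :=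
  Nat.mul_le_mul_right _ (Nat.pow_le_pow_right hK ha)

/-- the exponent of `Q` -/
theorem ar_Q {K w p n J : ℕ} (hK : 1 ≤ K) (hp : p ≤ 264 * K ^ 3 * w) (hn : n ≤ 33 * (K ^ 2 * w))
    (hJ : J ≤ 3 * (K * w)) :
    K * p + 2 * J + (n + (K + 1) * p) * (32 * K) + (n + J * (2 * K)) ≤ 20000 * K ^ 5 * w := by
  have a1 : K * p ≤ 264 * (K ^ 4 * w) := by
    calc K * p ≤ K * (264 * K ^ 3 * w) := Nat.mul_le_mul_left _ hp
      _ = _ := by ring
  have a2 : n * (32 * K) ≤ 1056 * (K ^ 3 * w) := by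
    calc n * (32 * K) ≤ 33 * (K ^ 2 * w) * (32 * K) := Nat.mul_le_mul_right _ hn
      _ = _ := by ring
  have a3 : (K + 1) * p * (32 * K) ≤ 16896 * (K ^ 5 * w) := by
    calc (K + 1) * p * (32 * K) ≤ (2 * K) * (264 * K ^ 3 * w) * (32 * K) :=
          Nat.mul_le_mul_right _ (Nat.mul_le_mul (by omega) hp)
      _ = _ := by ring
  have a4 : J * (2 * K) ≤ 6 * (K ^ 2 * w) := by
    calc J * (2 * K) ≤ 3 * (K * w) * (2 * K) := Nat.mul_le_mul_right _ hJ
      _ = _ := by ring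
  have b1 := ar_pow (w := w) hK (show 4 ≤ 5 by norm_num)
  have b2 := ar_pow (w := w) hK (show 3 ≤ 5 by norm_num)
  have b3 := ar_pow (w := w) hK (show 2 ≤ 5 by norm_num)
  have b4 := ar_pow (w := w) hK (show 1 ≤ 5 by norm_num)
  rw [pow_one] at b4
  have e1 : (n + (K + 1) * p) * (32 * K) = n * (32 * K) + (K + 1) * p * (32 * K) := by ring
  have e2 : 20000 * K ^ 5 * w = 20000 * (K ^ 5 * w) := by ring
  rw [e1, e2]
  omega

/-- the numerical contradiction -/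
theorem numeric {K w p n J t Q : ℕ} (hK : 1 ≤ K) (hw : 9 * K ≤ w) (hp : p ≤ 264 * K ^ 3 * w)
    (hn : n ≤ 33 * (K ^ 2 * w)) (hJ : J ≤ 3 * (K * w)) (hQ : 1 ≤ Q) (ht : 2 ≤ t)
    (h1 : Q ^ (20000 * K ^ 5) ≤ t) (h2 : (303 * K ^ 4 * w) ^ (33 * K) ≤ t)
    (h : t ^ ((n + J * (2 * K)) + 24 * K * w) ≤ 2 ^ (64 * K * w) * (2 * Q ^ (K * p) *
      ((Q ^ 2 * ((n + J * (2 * K)) + p * K)) ^ J *
        (n * (2 * n * Q ^ (n + (K + 1) * p)) ^ (32 * K))) * (Q * t) ^ (n + J * (2 * K)))) :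
    False := by
  obtain ⟨D, hD⟩ : ∃ D, D = n + J * (2 * K) := ⟨_, rfl⟩
  obtain ⟨Z, hZ⟩ : ∃ Z, Z = 303 * K ^ 4 * w := ⟨_, rfl⟩
  rw [← hZ] at h2
  have hw1 : 1 ≤ w := by omega
  have hKw : 1 ≤ K ^ 4 * w := Nat.mul_pos (by positivity) (by omega)
  have hZ1 : 4 ≤ Z := by
    rw [hZ]
    have : 303 * K ^ 4 * w = 303 * (K ^ 4 * w) := by ring
    omega
  have b1 := ar_pow4 (w := w) hK (show 4 ≤ 4 by norm_num)
  have b2 := ar_pow4 (w := w) hK (show 3 ≤ 4 by norm_num)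
  have b3 := ar_pow4 (w := w) hK (show 2 ≤ 4 by norm_num)
  have hZe : Z = 303 * (K ^ 4 * w) := by rw [hZ]; ring
  have hDZ : D + p * K ≤ Z := by
    have a1 : J * (2 * K) ≤ 6 * (K ^ 2 * w) := by
      calc J * (2 * K) ≤ 3 * (K * w) * (2 * K) := Nat.mul_le_mul_right _ hJ
        _ = _ := by ring
    have a2 : p * K ≤ 264 * (K ^ 4 * w) := by
      calc p * K ≤ (264 * K ^ 3 * w) * K := Nat.mul_le_mul_right _ hp
        _ = _ := by ring
    omega
  have hnZ : 2 * n ≤ Z := by omega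
  -- the five factors
  have f1 : 2 ^ (64 * K * w) * 2 ≤ t ^ w := by
    calc 2 ^ (64 * K * w) * 2 = 2 ^ (64 * K * w + 1) := (pow_succ _ _).symm
      _ ≤ 2 ^ (2 * (33 * K) * w) := by
          apply Nat.pow_le_pow_right (by norm_num)
          have h3 : 1 ≤ K * w := Nat.mul_pos (by omega) (by omega)
          have h4 : 64 * K * w = 64 * (K * w) := by ring
          have h5 : 2 * (33 * K) * w = 66 * (K * w) := by ring
          omega
      _ = ((2 ^ 2) ^ (33 * K)) ^ w := by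
          rw [← pow_mul, ← pow_mul]
          congr 1
          ring
      _ ≤ (Z ^ (33 * K)) ^ w := Nat.pow_le_pow_left (Nat.pow_le_pow_left (by omega) _) _
      _ ≤ t ^ w := Nat.pow_le_pow_left h2 _
  have f2 : Q ^ (K * p) * (Q ^ (2 * J) * (Q ^ ((n + (K + 1) * p) * (32 * K)) * Q ^ D)) ≤ t ^ w := by
    rw [← pow_add, ← pow_add, ← pow_add]
    calc _ ≤ Q ^ (20000 * K ^ 5 * w) := by
          apply Nat.pow_le_pow_right hQ
          have := ar_Q hK hp hn hJ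
          rw [hD]
          omega
      _ = (Q ^ (20000 * K ^ 5)) ^ w := by rw [← pow_mul]
      _ ≤ t ^ w := Nat.pow_le_pow_left h1 _
  have f3 : (D + p * K) ^ J ≤ t ^ w := by
    calc (D + p * K) ^ J ≤ Z ^ J := Nat.pow_le_pow_left hDZ _
      _ ≤ Z ^ (33 * K * w) := by
          apply Nat.pow_le_pow_right (by omega)
          have h5 : 33 * K * w = 33 * (K * w) := by ring
          omega
      _ = (Z ^ (33 * K)) ^ w := by rw [← pow_mul]
      _ ≤ t ^ w := Nat.pow_le_pow_left h2 _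
  have f4 : n * (2 * n) ^ (32 * K) ≤ t ^ w := by
    calc n * (2 * n) ^ (32 * K) ≤ Z * Z ^ (32 * K) :=
          Nat.mul_le_mul (by omega) (Nat.pow_le_pow_left hnZ _)
      _ = Z ^ (32 * K + 1) := by rw [pow_succ, mul_comm]
      _ ≤ Z ^ (33 * K) := Nat.pow_le_pow_right (by omega) (by omega)
      _ ≤ t := h2
      _ ≤ t ^ w := Nat.le_self_pow (by omega) t
  have hR : 2 ^ (64 * K * w) * (2 * Q ^ (K * p) * ((Q ^ 2 * (D + p * K)) ^ J *
        (n * (2 * n * Q ^ (n + (K + 1) * p)) ^ (32 * K))) * (Q * t) ^ D) =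
      (2 ^ (64 * K * w) * 2) *
      (Q ^ (K * p) * (Q ^ (2 * J) * (Q ^ ((n + (K + 1) * p) * (32 * K)) * Q ^ D))) *
      ((D + p * K) ^ J) * (n * (2 * n) ^ (32 * K)) * t ^ D := by
    rw [mul_pow (Q ^ 2), mul_pow (2 * n), mul_pow Q t, pow_mul Q 2 J,
      pow_mul Q (n + (K + 1) * p) (32 * K)]
    ring
  rw [← hD, hR] at h
  have h3 : t ^ (D + 24 * K * w) ≤ t ^ w * t ^ w * t ^ w * t ^ w * t ^ D :=
    h.trans (Nat.mul_le_mul_right _ (Nat.mul_le_mul (Nat.mul_le_mul (Nat.mul_le_mul f1 f2) f3) f4))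
  rw [← pow_add, ← pow_add, ← pow_add, ← pow_add] at h3
  have h4 := (Nat.pow_le_pow_iff_right (by omega : 1 < t)).mp h3
  have h5 : 24 * w ≤ 24 * K * w := Nat.mul_le_mul_right _ (by omega)
  omega

end arith

end Pool.Agent.Helper4.PC
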