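import Mathlib
import Pool.Agent.Helper4.PC.Core

/-!
# The main estimate: no solution with a large largest exponent
-/

set_option autoImplicit false

namespace Pool.Agent.Helper4.PC

open Polynomial Finset

/-- the size of the values of the iterates -/
theorem value_iter {G H A : ℤ[X]} {q n J j K Q t B p : ℕ} {τ : ℤ} (hA : A.natDegree < n)
    (hGK : G.natDegree ≤ K) (hHK : H.natDegree ≤ K) (hj : j ≤ J) (hGQ : l1 G ≤ Q) (hHQ : l1 H ≤ Q)
    (hQ : 1 ≤ Q) (hqp : q ≤ p) (ht : 1 ≤ t) (hτ : τ.natAbs ≤ Q * t)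
    (hB : ∀ i, (A.coeff i).natAbs ≤ B) (hn : 1 ≤ n) :
    (((st G H q)^[j] A).eval τ).natAbs ≤
      ((Q ^ 2 * ((n + J * (2 * K)) + p * K)) ^ J * (n * B)) * (Q * t) ^ (n + J * (2 * K)) := by
  have hdeg : ∀ i ≤ j, ((st G H q)^[i] A).natDegree ≤ n + J * (2 * K) := by
    intro i hi
    refine (natDegree_st_iter G H A q i).trans ?_
    have : i * (G.natDegree + H.natDegree) ≤ J * (2 * K) := Nat.mul_le_mul (by omega) (by omega)
    omega
  have h1 := natAbs_eval_le ((st G H q)^[j] A) (t := τ) (T := Q * t)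
    (Nat.mul_pos (by omega) (by omega)) hτ (hdeg j le_rfl)
  refine h1.trans (Nat.mul_le_mul_right _ ?_)
  have h2 := l1_st_iter G H A (q := q) (D := n + J * (2 * K))
    (Y := Q ^ 2 * ((n + J * (2 * K)) + p * K)) j hdeg (by
      refine Nat.mul_le_mul ?_ (Nat.add_le_add_left (Nat.mul_le_mul hqp hGK) _)
      calc l1 G * l1 H ≤ Q * Q := Nat.mul_le_mul hGQ hHQ
        _ = Q ^ 2 := by ring)
  refine h2.trans (Nat.mul_le_mul (Nat.pow_le_pow_right ?_ hj) ?_)
  · exact Nat.mul_pos (by positivity) (by omega)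
  · have h3 := l1_le_of_coeff (P := A) (K := n - 1) (B := B) (by omega) hB
    have h4 : n - 1 + 1 = n := by omega
    rwa [h4] at h3

theorem core {K w p q r t Q : ℕ} {F G H : ℤ[X]} {a x y z σ ρ : ℤ} (hK : 1 ≤ K)
    (hFm : F.Monic) (hd1 : 1 ≤ F.natDegree) (hdK : F.natDegree ≤ K)
    (hGK : G.natDegree ≤ K) (hHK : H.natDegree ≤ K)
    (hFG : IsCoprime (F.map (Int.castRingHom ℚ)) (G.map (Int.castRingHom ℚ)))
    (hFH : IsCoprime (F.map (Int.castRingHom ℚ)) (H.map (Int.castRingHom ℚ)))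
    (hGH : IsCoprime (G.map (Int.castRingHom ℚ)) (H.map (Int.castRingHom ℚ)))
    (hFQ : 1 + l1 F ≤ Q) (hGQ : l1 G ≤ Q) (hHQ : l1 H ≤ Q) (ha0 : a ≠ 0) (haQ : a.natAbs ≤ Q)
    (hFe : F.eval (a * t) = a ^ (F.natDegree - 1) * x)
    (hGe : G.eval (a * t) = a ^ G.natDegree * y) (hHe : H.eval (a * t) = a ^ H.natDegree * z)
    (hσ : σ.natAbs = 1) (heq : y ^ q = σ * z ^ r + ρ * x ^ p) (hxz : IsCoprime x z)
    (hx0 : x ≠ 0) (hy0 : y ≠ 0) (hz0 : z ≠ 0) (hxt : t ^ F.natDegree ≤ 2 * x.natAbs)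
    (hq0 : 0 < q) (hr0 : 0 < r) (hqp : q ≤ p) (hrp : r ≤ p) (hw : 9 * K ≤ w)
    (hwp : 64 * K * w ≤ p) (hpw : p ≤ 264 * K ^ 3 * w)
    (hbig : (32 * K + 1) * F.natDegree * w ≤ q * G.natDegree ∨
      (32 * K + 1) * F.natDegree * w ≤ r * H.natDegree)
    (ht : 2 ≤ t) (h1 : Q ^ (20000 * K ^ 5) ≤ t) (h2 : (303 * K ^ 4 * w) ^ (33 * K) ≤ t) : False := by
  obtain ⟨d, hd⟩ : ∃ d, d = F.natDegree := ⟨_, rfl⟩
  obtain ⟨n, hn⟩ : ∃ n, n = (32 * K + 1) * d * w := ⟨_, rfl⟩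
  obtain ⟨J, hJ⟩ : ∃ J, J = 2 * d * w + 3 * K := ⟨_, rfl⟩
  obtain ⟨M, hM⟩ : ∃ M, M = 64 * K * w := ⟨_, rfl⟩
  obtain ⟨τ, hτ⟩ : ∃ τ : ℤ, τ = a * t := ⟨_, rfl⟩
  have hd1' : 1 ≤ d := by omega
  have hdK' : d ≤ K := by omega
  have hw1 : 1 ≤ w := by omega
  have hQ1 : 1 ≤ Q := by omega
  have hn1 : 1 ≤ n := by
    rw [hn]
    exact Nat.mul_pos (Nat.mul_pos (by omega) (by omega)) (by omega)
  have hJle : J ≤ 3 * (K * w) := by rw [hJ]; exact ar_J hd1' hdK' hw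
  have hnle : n ≤ 33 * (K ^ 2 * w) := by rw [hn]; exact ar_n hd1' hdK'
  have hKw : 1 ≤ K * w := Nat.mul_pos (by omega) (by omega)
  have hMKw : M = 64 * (K * w) := by rw [hM]; ring
  have hM1 : 1 ≤ M := by omega
  have hMd : M * d = 64 * (K * d * w) := by rw [hM]; ring
  have hnd : 2 * n = 64 * (K * d * w) + 2 * (d * w) := by rw [hn]; ring
  have hdw : 1 ≤ d * w := Nat.mul_pos (by omega) (by omega)
  -- Siegel's lemma
  obtain ⟨S, hS⟩ : ∃ S, S = Q ^ (n + (K + 1) * p) := ⟨_, rfl⟩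
  have hrep : ∀ (G : ℤ[X]) (q : ℕ), G.natDegree ≤ K → l1 G ≤ Q → q ≤ p → ∀ i < n,
      Rep F M (X ^ i * G ^ q) S := by
    intro G q hGK hGQ hqp i hi
    have h3 : (X ^ i * G ^ q).natDegree ≤ n + p * K := by
      refine natDegree_mul_le.trans ?_
      rw [natDegree_X_pow, natDegree_pow]
      have : q * G.natDegree ≤ p * K := Nat.mul_le_mul hqp hGK
      omega
    refine (rep_poly hFm (by omega) hM1 (X ^ i * G ^ q) h3).mono ?_
    rw [l1_X_pow_mul, hS]
    have h4 : l1 (G ^ q) ≤ Q ^ p :=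
      (l1_pow_le G q).trans ((Nat.pow_le_pow_left hGQ q).trans (Nat.pow_le_pow_right hQ1 hqp))
    have h5 : (1 + l1 F) ^ (n + p * K) ≤ Q ^ (n + p * K) := Nat.pow_le_pow_left hFQ _
    calc l1 (G ^ q) * (1 + l1 F) ^ (n + p * K) ≤ Q ^ p * Q ^ (n + p * K) := Nat.mul_le_mul h4 h5
      _ = Q ^ (n + (K + 1) * p) := by rw [← pow_add]; congr 1; ring
  obtain ⟨A, B, hAB, hA, hB, hdiv, hAc, hBc⟩ := siegel (F := F) (P := G ^ q) (Q := H ^ r) (m := M)
    (n := n) (S := S) (e := 32 * K) (by omega) hM1 (by rw [← hd, hMd, hnd]; omega)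
    (by
      rw [← hd, hMd, hnd]
      have : 64 * (K * d * w) + 2 * (d * w) - 64 * (K * d * w) = 2 * (d * w) := by omega
      rw [this]
      ring)
    (by rw [hS]; exact Nat.one_le_pow _ _ (by omega)) (hrep G q hGK hGQ hqp) (hrep H r hHK hHQ hrp)
  -- values at `τ`
  have hapow : ∀ i, a ^ i ≠ 0 := fun i => pow_ne_zero i ha0
  rw [← hτ] at hFe hGe hHe
  have hFτ : F.eval τ ≠ 0 := by rw [hFe]; exact mul_ne_zero (hapow _) hx0
  have hGτ : G.eval τ ≠ 0 := by rw [hGe]; exact mul_ne_zero (hapow _) hy0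
  have hHτ : H.eval τ ≠ 0 := by rw [hHe]; exact mul_ne_zero (hapow _) hz0
  have hF0 : F ≠ 0 := by rintro rfl; simp at hFτ
  have hG0 : G ≠ 0 := by rintro rfl; simp at hGτ
  have hH0 : H ≠ 0 := by rintro rfl; simp at hHτ
  -- the numbers `ξ j`
  obtain ⟨ξ, hξ⟩ : ∃ ξ : ℕ → ℤ, ∀ j, ξ j = σ * a ^ (G.natDegree * q) * ((st G H q)^[j] A).eval τ -
      a ^ (H.natDegree * r) * ((st H G r)^[j] B).eval τ := ⟨_, fun _ => rfl⟩
  have hiterB : ∀ j, (th G H)^[j] (B * H ^ r) = ((st H G r)^[j] B) * H ^ r := by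
    intro j
    rw [th_iter_comm, st_iter _ _ _ hr0]
  have hiterA : ∀ j, (th G H)^[j] (A * G ^ q) = ((st G H q)^[j] A) * G ^ q := by
    intro j
    rw [st_iter _ _ _ hq0]
  have hGq : G.eval τ ^ q = a ^ (G.natDegree * q) * y ^ q := by
    rw [hGe, mul_pow, ← pow_mul]
  have hHr : H.eval τ ^ r = a ^ (H.natDegree * r) * z ^ r := by
    rw [hHe, mul_pow, ← pow_mul]
  -- not all of them vanish
  have hex : ∃ j ≤ J, ξ j ≠ 0 := by
    by_contra hcon
    push Not at hcon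
    apply hAB
    have hS' : (X - C τ) ^ (J + 1) ∣ C (σ * z ^ r) * (A * G ^ q) + C (-y ^ q) * (B * H ^ r) := by
      apply order hGτ hHτ
      intro j hj
      have h3 := hcon j hj
      rw [hξ] at h3
      rw [th_iter_add, th_iter_C_mul, th_iter_C_mul, hiterA, hiterB]
      simp only [eval_add, eval_mul, eval_C, eval_pow]
      rw [hGq, hHr]
      linear_combination (y ^ q * z ^ r) * h3
    have hmapS : (X - C ((τ : ℤ) : ℚ)) ^ (J + 1) ∣
        C (((σ * z ^ r : ℤ)) : ℚ) * (A.map (Int.castRingHom ℚ) * G.map (Int.castRingHom ℚ) ^ q) +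
        C (((-y ^ q : ℤ)) : ℚ) * (B.map (Int.castRingHom ℚ) * H.map (Int.castRingHom ℚ) ^ r) := by
      have h3 := Polynomial.map_dvd (Int.castRingHom ℚ) hS'
      simp only [Polynomial.map_pow, Polynomial.map_sub, Polynomial.map_X, Polynomial.map_C,
        Polynomial.map_add, Polynomial.map_mul] at h3
      exact h3
    have hmapF : F.map (Int.castRingHom ℚ) ^ (M - 1 + 1) ∣
        A.map (Int.castRingHom ℚ) * G.map (Int.castRingHom ℚ) ^ q -
        B.map (Int.castRingHom ℚ) * H.map (Int.castRingHom ℚ) ^ r := by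
      have h3 := Polynomial.map_dvd (Int.castRingHom ℚ) hdiv
      rw [Nat.sub_add_cancel hM1]
      simpa only [Polynomial.map_pow, Polynomial.map_sub, Polynomial.map_mul] using h3
    have hinj : Function.Injective (Int.castRingHom ℚ) := Int.cast_injective
    have hnat : ∀ P : ℤ[X], (P.map (Int.castRingHom ℚ)).natDegree = P.natDegree := fun P =>
      natDegree_map_eq_of_injective hinj P
    have hne : ∀ P : ℤ[X], P ≠ 0 → P.map (Int.castRingHom ℚ) ≠ 0 := fun P h =>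
      (Polynomial.map_ne_zero_iff hinj).mpr h
    have hev : ∀ P : ℤ[X], P.eval τ ≠ 0 → (P.map (Int.castRingHom ℚ)).eval ((τ : ℤ) : ℚ) ≠ 0 := by
      intro P hP
      have h3 : (P.map (Int.castRingHom ℚ)).eval ((τ : ℤ) : ℚ) = ((P.eval τ : ℤ) : ℚ) := by
        rw [← eq_intCast (Int.castRingHom ℚ) τ, eval_map, eval₂_hom]
        simp
      rw [h3]
      exact_mod_cast hP
    have hz := zero_estimate hFG hFH hGH hq0 hr0 (n := n) (M := M - 1) (J := J) (by rw [hnat]; exact hA)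
      (by rw [hnat]; exact hB) (hne _ hF0) (hne _ hG0) (hne _ hH0) hmapF (hev _ hFτ) (hev _ hGτ)
      (hev _ hHτ) (c₁ := ((σ * z ^ r : ℤ) : ℚ)) (c₂ := ((-y ^ q : ℤ) : ℚ)) (by
        have h3 : σ * z ^ r ≠ 0 := mul_ne_zero (by rintro rfl; simp at hσ) (pow_ne_zero _ hz0)
        exact_mod_cast h3) hmapS
      (by
        rw [hnat, hnat, hnat, ← hd]
        have h3 : d * (M - 1) = M * d - d := by rw [Nat.mul_sub, mul_one, mul_comm]
        rw [h3, hMd, hJ, hnd]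
        have h4 : 2 * d * w = 2 * (d * w) := by ring
        have h5 : d ≤ K * d * w := by
          have : d * 1 ≤ d * (K * w) := Nat.mul_le_mul_left _ hKw
          have h6 : d * (K * w) = K * d * w := by ring
          omega
        omega)
      (by rw [hnat, hnat, hn, hd]; exact hbig)
      (by
        rw [hnat, ← hd, Nat.sub_add_cancel hM1, hMd]
        have h3 : d * w ≤ K * d * w := by
          rw [mul_assoc]; exact Nat.le_mul_of_pos_left _ (by omega)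
        omega)
    exact ⟨(Polynomial.map_eq_zero_iff hinj).mp hz.1, (Polynomial.map_eq_zero_iff hinj).mp hz.2⟩
  obtain ⟨j, hj, hξj⟩ := hex
  -- divisibility
  have hJM : J ≤ M := by omega
  have hdvd : x ^ (M - j) ∣ ξ j := by
    have h3 := pow_dvd_th_iter G H hdiv j
    rw [th_iter_sub, hiterA, hiterB] at h3
    have h4 := Polynomial.eval_dvd (x := τ) h3
    simp only [eval_sub, eval_mul, eval_pow] at h4
    rw [hGq, hHr] at h4
    have h5 : x ^ (M - j) ∣ F.eval τ ^ (M - j) := by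
      rw [hFe, mul_pow]
      exact Dvd.intro_left _ rfl
    have h6 := h5.trans h4
    have h7 : x ^ (M - j) ∣ x ^ p := pow_dvd_pow _ (by omega)
    have h8 : x ^ (M - j) ∣ z ^ r * ξ j := by
      have h9 : z ^ r * ξ j = (((st G H q)^[j] A).eval τ * (a ^ (G.natDegree * q) * y ^ q) -
          ((st H G r)^[j] B).eval τ * (a ^ (H.natDegree * r) * z ^ r)) -
          (a ^ (G.natDegree * q) * ((st G H q)^[j] A).eval τ * ρ) * x ^ p := by
        rw [hξ, heq]
        ring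
      rw [h9]
      exact dvd_sub h6 (Dvd.dvd.mul_left h7 _)
    exact (IsCoprime.pow hxz).dvd_of_dvd_mul_left h8
  -- sizes
  have hτQ : τ.natAbs ≤ Q * t := by
    rw [hτ, Int.natAbs_mul, Int.natAbs_natCast]
    exact Nat.mul_le_mul_right _ haQ
  have hvA := value_iter (q := q) (p := p) hA hGK hHK hj hGQ hHQ hQ1 hqp (by omega : 1 ≤ t) hτQ hAc hn1
  have hvB := value_iter (q := r) (p := p) hB hHK hGK hj hHQ hGQ hQ1 hrp (by omega : 1 ≤ t) hτQ hBc hn1
  have hapw : ∀ i, i ≤ K * p → (a ^ i).natAbs ≤ Q ^ (K * p) := by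
    intro i hi
    rw [Int.natAbs_pow]
    exact (Nat.pow_le_pow_left haQ i).trans (Nat.pow_le_pow_right hQ1 hi)
  obtain ⟨V, hV⟩ : ∃ V, V = ((Q ^ 2 * ((n + J * (2 * K)) + p * K)) ^ J *
    (n * (2 * n * S) ^ (32 * K))) * (Q * t) ^ (n + J * (2 * K)) := ⟨_, rfl⟩
  rw [← hV] at hvA hvB
  have hup : (ξ j).natAbs ≤ Q ^ (K * p) * V + Q ^ (K * p) * V := by
    rw [hξ]
    refine (Int.natAbs_sub_le _ _).trans (Nat.add_le_add ?_ ?_)
    · rw [Int.natAbs_mul, Int.natAbs_mul, hσ, one_mul]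
      exact Nat.mul_le_mul (hapw _ (Nat.mul_le_mul hGK hqp)) hvA
    · rw [Int.natAbs_mul]
      exact Nat.mul_le_mul (hapw _ (Nat.mul_le_mul hHK hrp)) hvB
  have hlow : x.natAbs ^ (M - J) ≤ (ξ j).natAbs := by
    have h3 := Nat.le_of_dvd (Int.natAbs_pos.mpr hξj) (Int.natAbs_dvd_natAbs.mpr hdvd)
    rw [Int.natAbs_pow] at h3
    exact (Nat.pow_le_pow_right (Int.natAbs_pos.mpr hx0) (by omega)).trans h3
  -- the contradiction
  refine numeric (K := K) (w := w) (p := p) (n := n) (J := J) (t := t) (Q := Q) hK hw hpw hnle hJle hQ1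
    ht h1 h2 ?_
  rw [← hS, ← hM]
  calc t ^ ((n + J * (2 * K)) + 24 * K * w) ≤ t ^ (d * (M - J)) := by
        apply Nat.pow_le_pow_right (by omega)
        rw [hn, hM, hJ]
        exact ar_deg hd1' hdK' hw
    _ = (t ^ d) ^ (M - J) := by rw [pow_mul]
    _ ≤ (2 * x.natAbs) ^ (M - J) := Nat.pow_le_pow_left (by rw [hd]; exact hxt) _
    _ = 2 ^ (M - J) * x.natAbs ^ (M - J) := mul_pow _ _ _
    _ ≤ 2 ^ M * (Q ^ (K * p) * V + Q ^ (K * p) * V) :=
        Nat.mul_le_mul (Nat.pow_le_pow_right (by norm_num) (by omega)) (hlow.trans hup)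
    _ = _ := by rw [hV]; ring

end Pool.Agent.Helper4.PC
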