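import Mathlib
import Pool.Agent.Helper4.PC.Core2
import Pool.Graph.R_pool_sql_team_seeded_3997aac3.Q103.FC.Step

/-!
# The case of a large largest exponent
-/

set_option autoImplicit false

namespace Pool.Agent.Helper4.PC

open Polynomial Finset

theorem coprime_polys {f g : ℤ[X]} {B t : ℕ} (hf : f ≠ 0) (hB : ∀ i, (f.coeff i).natAbs ≤ B)
    (ht : B + 3 ≤ t) (hc : IsCoprime (f.eval (t : ℤ)) (g.eval (t : ℤ))) :
    IsCoprime (f.map (Int.castRingHom ℚ)) (g.map (Int.castRingHom ℚ)) := by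
  refine Pool.Agent.Q103.FC.coprime_of_eval hf (B := (B : ℝ)) (by positivity) ?_
    (by exact_mod_cast ht) hc
  intro n
  have h1 : ((f.coeff n).natAbs : ℝ) ≤ B := by exact_mod_cast hB n
  rwa [Nat.cast_natAbs, Int.cast_abs] at h1

theorem low_value {f : ℤ[X]} {B t : ℕ} (hf : f ≠ 0) (hB : ∀ i, (f.coeff i).natAbs ≤ B)
    (ht : 4 * B ≤ t) (ht2 : 2 ≤ t) : t ^ f.natDegree ≤ 2 * (f.eval (t : ℤ)).natAbs := by
  have hT : (2 : ℝ) ≤ t := by exact_mod_cast ht2
  have h1 := Pool.Agent.Q103.FC.size (P := f) (B := (B : ℝ)) (T := (t : ℝ)) hT (by positivity) (by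
    intro n
    have h1 : ((f.coeff n).natAbs : ℝ) ≤ B := by exact_mod_cast hB n
    rwa [Nat.cast_natAbs, Int.cast_abs] at h1)
  rw [Pool.Agent.Q103.FC.eval_real] at h1
  have h2 : (1 : ℝ) ≤ |(f.leadingCoeff : ℝ)| := by
    have h3 : (1 : ℤ) ≤ |f.leadingCoeff| := Int.one_le_abs (leadingCoeff_ne_zero.mpr hf)
    exact_mod_cast h3
  obtain ⟨v, hv⟩ : ∃ v : ℝ, v = ((f.eval (t : ℤ) : ℤ) : ℝ) := ⟨_, rfl⟩
  rw [← hv] at h1
  have h4 : (4 : ℝ) * B ≤ t := by exact_mod_cast ht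
  obtain ⟨T, hTd⟩ : ∃ T : ℝ, T = (t : ℝ) ^ f.natDegree := ⟨_, rfl⟩
  rw [← hTd] at h1
  have hT0 : 0 < T := by rw [hTd]; positivity
  have h5 : |v - (f.leadingCoeff : ℝ) * T| * t ≤ (T / 2) * t := by
    refine h1.trans ?_
    nlinarith
  have h6 : |v - (f.leadingCoeff : ℝ) * T| ≤ T / 2 := le_of_mul_le_mul_right h5 (by linarith)
  have h7 : T ≤ |(f.leadingCoeff : ℝ) * T| := by
    rw [abs_mul, abs_of_pos hT0]
    nlinarith
  have h8 : |(f.leadingCoeff : ℝ) * T| ≤ |v| + |v - (f.leadingCoeff : ℝ) * T| := by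
    have h9 : (f.leadingCoeff : ℝ) * T = v - (v - (f.leadingCoeff : ℝ) * T) := by ring
    calc |(f.leadingCoeff : ℝ) * T| = |v - (v - (f.leadingCoeff : ℝ) * T)| := by rw [← h9]
      _ ≤ _ := abs_sub _ _
  have h10 : T ≤ 2 * |v| := by linarith
  have h11 : |v| = (((f.eval (t : ℤ)).natAbs : ℕ) : ℝ) := by
    rw [hv, Nat.cast_natAbs, Int.cast_abs]
  rw [h11, hTd] at h10
  exact_mod_cast h10

theorem l1_scale {f : ℤ[X]} {B K : ℕ} {a : ℤ} (hK : f.natDegree ≤ K)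
    (hB : ∀ i, (f.coeff i).natAbs ≤ B) (ha : a.natAbs ≤ B) (hB1 : 1 ≤ B) :
    l1 (scaleRoots f a) ≤ (K + 1) * B ^ (K + 1) := by
  refine l1_le_of_coeff (by rw [natDegree_scaleRoots]; exact hK) fun i => ?_
  rw [coeff_scaleRoots, Int.natAbs_mul, Int.natAbs_pow, pow_succ, mul_comm]
  refine Nat.mul_le_mul ?_ (hB i)
  exact (Nat.pow_le_pow_left ha _).trans (Nat.pow_le_pow_right hB1 (by omega))

theorem l1_norm {f : ℤ[X]} {B K : ℕ} (hK : f.natDegree ≤ K)
    (hB : ∀ i, (f.coeff i).natAbs ≤ B) (hB1 : 1 ≤ B) :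
    l1 (integralNormalization f) ≤ (K + 1) * B ^ (K + 1) := by
  refine l1_le_of_coeff (by rw [natDegree_integralNormalization]; exact hK) fun i => ?_
  rw [integralNormalization_coeff]
  split_ifs with h
  · exact Nat.one_le_pow _ _ (by omega)
  · rw [Int.natAbs_mul, Int.natAbs_pow, pow_succ, mul_comm]
    refine Nat.mul_le_mul ?_ (hB i)
    exact (Nat.pow_le_pow_left (hB _) _).trans (Nat.pow_le_pow_right hB1 (by omega))

/-- the numerical contradiction for small second and third exponents -/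
theorem small_others {K d p q r t Q x y z n : ℕ} (hp : 1 ≤ p)
    (hd : 1 ≤ d) (hxt : t ^ d ≤ 2 * x) (hy : y ≤ Q * t ^ K) (hz : z ≤ Q * t ^ K)
    (hx : x ^ p ≤ y ^ q + z ^ r) (hqn : q ≤ n) (hrn : r ≤ n) (hn : 4 * K * n ≤ p) (hK : 1 ≤ K)
    (hQ1 : 1 ≤ Q) (hQ : Q ^ 4 ≤ t) (ht : 256 ≤ t) : False := by
  have h1 : 1 ≤ Q * t ^ K := Nat.mul_pos (by omega) (by positivity)
  have h2 : ∀ {y q : ℕ}, y ≤ Q * t ^ K → q ≤ n → y ^ q ≤ (Q * t ^ K) ^ n := fun hy hq =>
    (Nat.pow_le_pow_left hy _).trans (Nat.pow_le_pow_right h1 hq)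
  have h3 : t ^ p ≤ 2 ^ p * (2 * (Q * t ^ K) ^ n) := by
    calc t ^ p ≤ (t ^ d) ^ p := Nat.pow_le_pow_left (Nat.le_self_pow (by omega) t) p
      _ ≤ (2 * x) ^ p := Nat.pow_le_pow_left hxt p
      _ = 2 ^ p * x ^ p := mul_pow _ _ _
      _ ≤ 2 ^ p * (y ^ q + z ^ r) := Nat.mul_le_mul_left _ hx
      _ ≤ 2 ^ p * (2 * (Q * t ^ K) ^ n) := by
          refine Nat.mul_le_mul_left _ ?_
          have := h2 hy hqn
          have := h2 hz hrn
          omega
  have h4 : (t ^ p) ^ 4 ≤ (t ^ p) ^ 3 := by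
    calc (t ^ p) ^ 4 ≤ (2 ^ p * (2 * (Q * t ^ K) ^ n)) ^ 4 := Nat.pow_le_pow_left h3 4
      _ = (2 ^ (4 * p) * 2 ^ 4) * ((Q ^ 4) ^ n) * t ^ (4 * K * n) := by
          rw [mul_pow, mul_pow, ← pow_mul, ← pow_mul, mul_pow, ← pow_mul, ← pow_mul,
            mul_comm p 4, mul_comm n 4]
          have e1 : K * (4 * n) = 4 * K * n := by ring
          rw [e1]
          ring
      _ ≤ t ^ p * t ^ p * t ^ p := by
          refine Nat.mul_le_mul (Nat.mul_le_mul ?_ ?_) ?_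
          · calc 2 ^ (4 * p) * 2 ^ 4 = 2 ^ (4 * p + 4) := (pow_add _ _ _).symm
              _ ≤ 2 ^ (8 * p) := Nat.pow_le_pow_right (by norm_num) (by omega)
              _ = 256 ^ p := by rw [pow_mul]; norm_num
              _ ≤ t ^ p := Nat.pow_le_pow_left ht p
          · refine (Nat.pow_le_pow_left hQ n).trans (Nat.pow_le_pow_right (by omega) ?_)
            have : n ≤ 4 * K * n := Nat.le_mul_of_pos_left _ (by omega)
            omega
          · exact Nat.pow_le_pow_right (by omega) hn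
      _ = (t ^ p) ^ 3 := by ring
  have h5 : 1 < t ^ p := Nat.one_lt_pow (by omega) (by omega)
  have h6 := (Nat.pow_le_pow_iff_right h5).mp h4
  omega

theorem large {K B t p q r : ℕ} {f g h : ℤ[X]} {σ ρ : ℤ} (hK : 1 ≤ K) (hB1 : 1 ≤ B)
    (hf1 : 1 ≤ f.natDegree) (hfK : f.natDegree ≤ K) (hg1 : 1 ≤ g.natDegree) (hgK : g.natDegree ≤ K)
    (hh1 : 1 ≤ h.natDegree) (hhK : h.natDegree ≤ K) (hfB : ∀ i, (f.coeff i).natAbs ≤ B)
    (hgB : ∀ i, (g.coeff i).natAbs ≤ B) (hhB : ∀ i, (h.coeff i).natAbs ≤ B)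
    (hσ : σ.natAbs = 1) (hρ : ρ.natAbs = 1)
    (cfg : IsCoprime (f.eval (t : ℤ)) (g.eval (t : ℤ)))
    (cfh : IsCoprime (f.eval (t : ℤ)) (h.eval (t : ℤ)))
    (cgh : IsCoprime (g.eval (t : ℤ)) (h.eval (t : ℤ)))
    (heq : g.eval (t : ℤ) ^ q = σ * h.eval (t : ℤ) ^ r + ρ * f.eval (t : ℤ) ^ p)
    (hq0 : 0 < q) (hr0 : 0 < r) (hqp : q ≤ p) (hrp : r ≤ p) (hp : 1188 * K ^ 4 ≤ p)
    (ht : 256 ≤ t) (h1 : (1 + (K + 1) * B ^ (K + 1)) ^ (20000 * K ^ 5) ≤ t)
    (h2 : (303 * K ^ 4 * p) ^ (33 * K) ≤ t) : False := by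
  obtain ⟨Q, hQ⟩ : ∃ Q, Q = 1 + (K + 1) * B ^ (K + 1) := ⟨_, rfl⟩
  have hBQ : B ≤ Q := by
    have a1 : B ≤ B ^ (K + 1) := Nat.le_self_pow (by omega) B
    have a2 : B ^ (K + 1) ≤ (K + 1) * B ^ (K + 1) := Nat.le_mul_of_pos_left _ (by omega)
    omega
  have hK5 : 1 ≤ K ^ 5 := Nat.one_le_pow _ _ (by omega)
  have hQ2 : 2 ≤ Q := by
    have a1 : 1 ≤ (K + 1) * B ^ (K + 1) := Nat.mul_pos (by omega) (by positivity)
    omega
  rw [← hQ] at h1
  have hQ4 : Q ^ 4 ≤ t := (Nat.pow_le_pow_right (by omega) (by omega)).trans h1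
  have hBt : 4 * B + 3 ≤ t := by
    have a1 : 4 * Q + 3 ≤ Q ^ 4 := by
      have a2 : Q * 8 ≤ Q * Q ^ 3 := Nat.mul_le_mul_left _ (by
        calc 8 = 2 ^ 3 := by norm_num
          _ ≤ Q ^ 3 := Nat.pow_le_pow_left hQ2 3)
      have a3 : Q ^ 4 = Q * Q ^ 3 := by ring
      omega
    omega
  have hf0 : f ≠ 0 := by rintro rfl; simp at hf1
  have hg0 : g ≠ 0 := by rintro rfl; simp at hg1
  have hh0 : h ≠ 0 := by rintro rfl; simp at hh1
  have hfv := low_value hf0 hfB (by omega) (by omega : 2 ≤ t)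
  have hgv := low_value hg0 hgB (by omega) (by omega : 2 ≤ t)
  have hhv := low_value hh0 hhB (by omega) (by omega : 2 ≤ t)
  have hpos : ∀ {P : ℤ[X]}, t ^ P.natDegree ≤ 2 * (P.eval (t : ℤ)).natAbs → P.eval (t : ℤ) ≠ 0 := by
    intro P hP h0
    rw [h0] at hP
    simp only [Int.natAbs_zero, mul_zero, nonpos_iff_eq_zero] at hP
    have : 0 < t ^ P.natDegree := by positivity
    omega
  -- `w`
  obtain ⟨w, hw⟩ : ∃ w, w = p / (132 * K ^ 3) := ⟨_, rfl⟩
  have hK3 : 0 < 132 * K ^ 3 := by positivity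
  have hw1 : 132 * K ^ 3 * w ≤ p := by rw [hw]; exact Nat.mul_div_le _ _
  have hw2 : p < 132 * K ^ 3 * (w + 1) := by
    rw [hw]
    exact Nat.lt_mul_div_succ p hK3
  have hwK : 9 * K ≤ w := by
    rw [hw, Nat.le_div_iff_mul_le hK3]
    calc 9 * K * (132 * K ^ 3) = 1188 * K ^ 4 := by ring
      _ ≤ p := hp
  have hpw : p ≤ 264 * K ^ 3 * w := by
    have a1 : 132 * K ^ 3 * (w + 1) ≤ 132 * K ^ 3 * (2 * w) := Nat.mul_le_mul_left _ (by omega)
    calc p ≤ 132 * K ^ 3 * (2 * w) := by omega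
      _ = _ := by ring
  have hwp : 64 * K * w ≤ p := by
    refine le_trans ?_ hw1
    refine Nat.mul_le_mul_right _ ?_
    have a1 : K ^ 1 ≤ K ^ 3 := Nat.pow_le_pow_right (by omega) (by norm_num)
    rw [pow_one] at a1
    omega
  have hp1 : 1 ≤ p := by
    have : 1 ≤ K ^ 4 := Nat.one_le_pow _ _ (by omega)
    omega
  -- one of the other exponents is large
  have hbig : (32 * K + 1) * f.natDegree * w ≤ q * g.natDegree ∨
      (32 * K + 1) * f.natDegree * w ≤ r * h.natDegree := by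
    by_contra hcon
    push Not at hcon
    obtain ⟨b1, b2⟩ := hcon
    obtain ⟨n, hn⟩ : ∃ n, n = (32 * K + 1) * f.natDegree * w := ⟨_, rfl⟩
    rw [← hn] at b1 b2
    have c1 : q ≤ n := by
      have : q ≤ q * g.natDegree := Nat.le_mul_of_pos_right _ (by omega)
      omega
    have c2 : r ≤ n := by
      have : r ≤ r * h.natDegree := Nat.le_mul_of_pos_right _ (by omega)
      omega
    have c3 : n ≤ 33 * (K ^ 2 * w) := by rw [hn]; exact ar_n hf1 hfK
    have c4 : 4 * K * n ≤ p := by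
      calc 4 * K * n ≤ 4 * K * (33 * (K ^ 2 * w)) := Nat.mul_le_mul_left _ c3
        _ = 132 * K ^ 3 * w := by ring
        _ ≤ p := hw1
    have c5 : ∀ {P : ℤ[X]}, P.natDegree ≤ K → (∀ i, (P.coeff i).natAbs ≤ B) →
        (P.eval (t : ℤ)).natAbs ≤ Q * t ^ K := by
      intro P hP hPB
      refine (natAbs_eval_le P (T := t) (by omega) (by simp) hP).trans (Nat.mul_le_mul_right _ ?_)
      refine (l1_le_of_coeff hP hPB).trans ?_
      have a1 : (K + 1) * B ≤ (K + 1) * B ^ (K + 1) :=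
        Nat.mul_le_mul_left _ (Nat.le_self_pow (by omega) B)
      omega
    have c6 : (f.eval (t : ℤ)).natAbs ^ p ≤
        (g.eval (t : ℤ)).natAbs ^ q + (h.eval (t : ℤ)).natAbs ^ r := by
      have a1 : ρ * f.eval (t : ℤ) ^ p = g.eval (t : ℤ) ^ q - σ * h.eval (t : ℤ) ^ r := by
        rw [heq]; ring
      have a2 : (ρ * f.eval (t : ℤ) ^ p).natAbs = (f.eval (t : ℤ)).natAbs ^ p := by
        rw [Int.natAbs_mul, hρ, one_mul, Int.natAbs_pow]
      have a3 : (σ * h.eval (t : ℤ) ^ r).natAbs = (h.eval (t : ℤ)).natAbs ^ r := by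
        rw [Int.natAbs_mul, hσ, one_mul, Int.natAbs_pow]
      rw [← a2, a1, ← a3, ← Int.natAbs_pow]
      exact Int.natAbs_sub_le _ _
    exact small_others hp1 hf1 hfv (c5 hgK hgB) (c5 hhK hhB) c6 c1 c2 c4 hK
      (by omega) hQ4 ht
  -- the scaled polynomials
  obtain ⟨a, ha⟩ : ∃ a, a = f.leadingCoeff := ⟨_, rfl⟩
  have ha0 : a ≠ 0 := by rw [ha]; exact leadingCoeff_ne_zero.mpr hf0
  have haB : a.natAbs ≤ B := by rw [ha]; exact hfB _
  have hinj : Function.Injective (Int.castRingHom ℚ) := Int.cast_injective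
  have haQ : IsUnit ((Int.castRingHom ℚ) a) := by
    rw [isUnit_iff_ne_zero]
    simpa using ha0
  have hmap : ∀ {P : ℤ[X]}, P ≠ 0 → (scaleRoots P a).map (Int.castRingHom ℚ) =
      scaleRoots (P.map (Int.castRingHom ℚ)) ((Int.castRingHom ℚ) a) := by
    intro P hP
    apply map_scaleRoots
    intro h0
    exact (leadingCoeff_ne_zero.mpr hP) (hinj (by rw [h0, map_zero]))
  have hcop : ∀ {P R : ℤ[X]}, P ≠ 0 → R ≠ 0 →
      IsCoprime (P.map (Int.castRingHom ℚ)) (R.map (Int.castRingHom ℚ)) →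
      IsCoprime ((scaleRoots P a).map (Int.castRingHom ℚ))
        ((scaleRoots R a).map (Int.castRingHom ℚ)) := by
    intro P R hP hR hPR
    rw [hmap hP, hmap hR]
    exact isCoprime_scaleRoots _ _ _ haQ hPR
  have hdvd : (integralNormalization f).map (Int.castRingHom ℚ) ∣
      (scaleRoots f a).map (Int.castRingHom ℚ) := by
    apply Polynomial.map_dvd
    rw [ha, ← integralNormalization_mul_C_leadingCoeff]
    exact Dvd.intro _ rfl
  have kfg := coprime_polys hf0 hfB (by omega) cfg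
  have kfh := coprime_polys hf0 hfB (by omega) cfh
  have kgh := coprime_polys hg0 hgB (by omega) cgh
  refine core (K := K) (w := w) (p := p) (q := q) (r := r) (t := t) (Q := Q)
    (F := integralNormalization f) (G := scaleRoots g a) (H := scaleRoots h a) (a := a)
    (x := f.eval (t : ℤ)) (y := g.eval (t : ℤ)) (z := h.eval (t : ℤ)) (σ := σ) (ρ := ρ) hK
    (monic_integralNormalization hf0) (by rw [natDegree_integralNormalization]; exact hf1)
    (by rw [natDegree_integralNormalization]; exact hfK) (by rw [natDegree_scaleRoots]; exact hgK)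
    (by rw [natDegree_scaleRoots]; exact hhK)
    ((hcop hf0 hg0 kfg).of_isCoprime_of_dvd_left hdvd)
    ((hcop hf0 hh0 kfh).of_isCoprime_of_dvd_left hdvd) (hcop hg0 hh0 kgh)
    ?_ ?_ ?_ ha0 (haB.trans hBQ) ?_ ?_ ?_ hσ heq cfh (hpos hfv) (hpos hgv) (hpos hhv) ?_ hq0 hr0 hqp
    hrp hwK hwp hpw ?_ (by omega) h1 ?_
  · have := l1_norm hfK hfB hB1
    omega
  · have := l1_scale (a := a) hgK hgB haB hB1
    omega
  · have := l1_scale (a := a) hhK hhB haB hB1
    omega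
  · rw [natDegree_integralNormalization, ha]
    have := integralNormalization_eval₂_leadingCoeff_mul hf1 (RingHom.id ℤ) (t : ℤ)
    simpa [eval₂_id] using this
  · rw [natDegree_scaleRoots]
    exact scaleRoots_eval_mul _ _ _
  · rw [natDegree_scaleRoots]
    exact scaleRoots_eval_mul _ _ _
  · rw [natDegree_integralNormalization]
    exact hfv
  · rw [natDegree_integralNormalization, natDegree_scaleRoots, natDegree_scaleRoots]
    exact hbig
  · refine le_trans (Nat.pow_le_pow_left (Nat.mul_le_mul_left _ ?_) _) h2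
    rw [hw]
    exact Nat.div_le_self _ _

end Pool.Agent.Helper4.PC
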