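import Mathlib
import Pool.Agent.Helper4.PC.Large
import Pool.Agent.Helper4.PC.Consts

/-!
# The Fermat-Catalan equation along polynomial curves
-/

set_option autoImplicit false

namespace Pool.Agent.Helper4.PC

open Polynomial Finset Filter Topology

/-- the exponent of the coefficient bound -/
def LL (K : ℕ) : ℕ := 2 * (K + 1) * (20000 * K ^ 5)

theorem consts {K : ℕ} (hK : 1 ≤ K) : ∃ T : ℕ, ∀ t : ℕ, T ≤ t → ∀ B : ℕ, 1 ≤ B → B ^ LL K ≤ t →
    (1 + (K + 1) * B ^ (K + 1)) ^ (20000 * K ^ 5) ≤ t ∧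
      6 * ((K + 1) * B) ^ (1188 * K ^ 4) < t ∧ (K + 1) * B ≤ t := by
  obtain ⟨c, hc⟩ : ∃ c, c = 20000 * K ^ 5 := ⟨_, rfl⟩
  obtain ⟨N, hN⟩ : ∃ N, N = 1188 * K ^ 4 := ⟨_, rfl⟩
  have hNc : N ≤ c := by
    have a1 : K ^ 4 ≤ K ^ 5 := Nat.pow_le_pow_right hK (by norm_num)
    omega
  have hN1 : 1 ≤ N := by
    have a1 : 1 ≤ K ^ 4 := Nat.one_le_pow _ _ (by omega)
    omega
  refine ⟨37 * (K + 2) ^ (2 * c), fun t ht B hB hBt => ?_⟩
  rw [← hc, ← hN]
  have hL : LL K = 2 * ((K + 1) * c) := by rw [LL, hc]; ring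
  rw [hL] at hBt
  have hK2 : 1 ≤ (K + 2) ^ (2 * c) := Nat.one_le_pow _ _ (by omega)
  have h1 : (1 + (K + 1) * B ^ (K + 1)) ^ c ≤ t := by
    have a1 : 1 + (K + 1) * B ^ (K + 1) ≤ (K + 2) * B ^ (K + 1) := by
      have : 1 ≤ B ^ (K + 1) := Nat.one_le_pow _ _ (by omega)
      have e : (K + 2) * B ^ (K + 1) = (K + 1) * B ^ (K + 1) + B ^ (K + 1) := by ring
      omega
    have a2 : ((1 + (K + 1) * B ^ (K + 1)) ^ c) ^ 2 ≤ t ^ 2 := by
      calc ((1 + (K + 1) * B ^ (K + 1)) ^ c) ^ 2 ≤ (((K + 2) * B ^ (K + 1)) ^ c) ^ 2 :=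
            Nat.pow_le_pow_left (Nat.pow_le_pow_left a1 c) 2
        _ = (K + 2) ^ (2 * c) * B ^ (2 * ((K + 1) * c)) := by
            rw [← pow_mul, mul_pow, ← pow_mul]
            congr 2 <;> ring
        _ ≤ t * t := Nat.mul_le_mul (by omega) hBt
        _ = t ^ 2 := by ring
    exact (Nat.pow_le_pow_iff_left (by norm_num)).mp a2
  have h2 : 6 * ((K + 1) * B) ^ N < t := by
    have a2 : (6 * ((K + 1) * B) ^ N) ^ 2 < t ^ 2 := by
      calc (6 * ((K + 1) * B) ^ N) ^ 2 = (36 * (K + 1) ^ (2 * N)) * B ^ (2 * N) := by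
            rw [mul_pow, mul_pow, mul_pow, ← pow_mul, ← pow_mul, mul_comm N 2]
            ring
        _ ≤ (36 * (K + 2) ^ (2 * c)) * t := by
            refine Nat.mul_le_mul (Nat.mul_le_mul_left _ ?_) ?_
            · exact (Nat.pow_le_pow_left (by omega) _).trans (Nat.pow_le_pow_right (by omega) (by omega))
            · refine (Nat.pow_le_pow_right (by omega) ?_).trans hBt
              have : N ≤ (K + 1) * c := hNc.trans (Nat.le_mul_of_pos_left _ (by omega))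
              omega
        _ < t * t := Nat.mul_lt_mul_of_pos_right (by omega) (by omega)
        _ = t ^ 2 := by ring
    exact (Nat.pow_lt_pow_iff_left (by norm_num)).mp a2
  refine ⟨h1, h2, ?_⟩
  have a1 : (K + 1) * B ≤ ((K + 1) * B) ^ N := Nat.le_self_pow (by omega) _
  omega

/-- **No solutions over a large integer.** -/
theorem none {K : ℕ} (hK : 1 ≤ K) : ∃ T : ℕ, ∀ t : ℕ, T ≤ t → ∀ B : ℕ, 1 ≤ B → B ^ LL K ≤ t →
    ∀ f g h : ℤ[X], 1 ≤ f.natDegree → f.natDegree ≤ K → 1 ≤ g.natDegree → g.natDegree ≤ K →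
    1 ≤ h.natDegree → h.natDegree ≤ K → (∀ i, (f.coeff i).natAbs ≤ B) →
    (∀ i, (g.coeff i).natAbs ≤ B) → (∀ i, (h.coeff i).natAbs ≤ B) →
    ∀ x y z p q r : ℕ, Sol x y z p q r → f.eval (t : ℤ) = x → g.eval (t : ℤ) = y →
      h.eval (t : ℤ) = z → False := by
  obtain ⟨T₁, hT₁⟩ := consts hK
  obtain ⟨T₂, hT₂⟩ := exps_small (K + 1) (303 * K ^ 4)
  refine ⟨T₁ + T₂ + 256, fun t ht B hB1 hBt f g h hf1 hfK hg1 hgK hh1 hhK hfB hgB hhB x y z p q r hs
    hx hy hz => ?_⟩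
  obtain ⟨h1, h2, h3⟩ := hT₁ t (by omega) B hB1 hBt
  have hK4 : 1 ≤ K ^ 4 := Nat.one_le_pow _ _ (by omega)
  have hKK : K ≤ K ^ 4 := Nat.le_self_pow (by norm_num) K
  obtain ⟨p2, q2, r2⟩ := hs.two_le
  have hineq := hs.ineq
  have hcopr := hs.coprimes
  have heq : x ^ p + y ^ q = z ^ r := hs.2.2.2.2.2.2.2.2
  have heqZ : (x : ℤ) ^ p + (y : ℤ) ^ q = (z : ℤ) ^ r := by exact_mod_cast heq
  -- sizes of the bases
  have hB3 : 4 * B + 3 ≤ t := by
    have a1 : B ≤ (K + 1) * B := Nat.le_mul_of_pos_left _ (by omega)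
    have a2 : (K + 1) * B ≤ ((K + 1) * B) ^ (1188 * K ^ 4) := Nat.le_self_pow (by omega) _
    have a3 : 2 * B ≤ (K + 1) * B := Nat.mul_le_mul_right _ (by omega)
    omega
  have hf0 : f ≠ 0 := by rintro rfl; simp at hf1
  have hg0 : g ≠ 0 := by rintro rfl; simp at hg1
  have hh0 : h ≠ 0 := by rintro rfl; simp at hh1
  have hlow : ∀ {P : ℤ[X]} {v : ℕ}, P ≠ 0 → 1 ≤ P.natDegree → (∀ i, (P.coeff i).natAbs ≤ B) →
      P.eval (t : ℤ) = v → 2 ≤ v := by
    intro P v hP hP1 hPB hv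
    have a1 := low_value hP hPB (by omega) (by omega : 2 ≤ t)
    rw [hv, Int.natAbs_natCast] at a1
    have a2 : t ≤ t ^ P.natDegree := Nat.le_self_pow (by omega) t
    omega
  have hup : ∀ {P : ℤ[X]} {v : ℕ}, P.natDegree ≤ K → (∀ i, (P.coeff i).natAbs ≤ B) →
      P.eval (t : ℤ) = v → v ≤ t ^ (K + 1) := by
    intro P v hPK hPB hv
    have a1 := natAbs_eval_le P (t := t) (T := t) (D := K) (by omega) (by simp) hPK
    rw [hv, Int.natAbs_natCast] at a1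
    have a2 := (l1_le_of_coeff hPK hPB).trans h3
    calc v ≤ l1 P * t ^ K := a1
      _ ≤ t * t ^ K := Nat.mul_le_mul_right _ a2
      _ = t ^ (K + 1) := by ring
  have hx2 := hlow hf0 hf1 hfB hx
  have hy2 := hlow hg0 hg1 hgB hy
  have hE := hT₂ t (by omega) x y z p q r hs hx2 hy2 (hup hfK hfB hx) (hup hgK hgB hy)
    (hup hhK hhB hz)
  have hE' : ∀ e : ℕ, (e = p ∨ e = q ∨ e = r) → (303 * K ^ 4 * e) ^ (33 * K) ≤ t := by
    intro e he
    refine (Nat.pow_le_pow_right ?_ (by omega)).trans (hE e he)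
    have : 1 ≤ e := by omega
    exact Nat.mul_pos (by omega) this
  -- coprime values
  have cxy : IsCoprime (x : ℤ) (y : ℤ) := Nat.isCoprime_iff_coprime.mpr hcopr.1
  have cxz : IsCoprime (x : ℤ) (z : ℤ) := Nat.isCoprime_iff_coprime.mpr hcopr.2.1
  have cyz : IsCoprime (y : ℤ) (z : ℤ) := Nat.isCoprime_iff_coprime.mpr hcopr.2.2
  -- the largest exponent
  by_cases hpbig : 1188 * K ^ 4 ≤ p ∧ q ≤ p ∧ r ≤ p
  · exact large (K := K) (B := B) (t := t) (p := p) (q := q) (r := r) (f := f) (g := g) (h := h)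
      (σ := 1) (ρ := -1) hK hB1 hf1 hfK hg1 hgK hh1 hhK hfB hgB hhB (by simp) (by simp)
      (by rw [hx, hy]; exact cxy) (by rw [hx, hz]; exact cxz) (by rw [hy, hz]; exact cyz)
      (by rw [hx, hy, hz]; linear_combination heqZ) (by omega) (by omega) hpbig.2.1 hpbig.2.2
      hpbig.1 (by omega) h1 (hE' p (Or.inl rfl))
  by_cases hqbig : 1188 * K ^ 4 ≤ q ∧ p ≤ q ∧ r ≤ q
  · exact large (K := K) (B := B) (t := t) (p := q) (q := p) (r := r) (f := g) (g := f) (h := h)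
      (σ := 1) (ρ := -1) hK hB1 hg1 hgK hf1 hfK hh1 hhK hgB hfB hhB (by simp) (by simp)
      (by rw [hx, hy]; exact cxy.symm) (by rw [hy, hz]; exact cyz) (by rw [hx, hz]; exact cxz)
      (by rw [hx, hy, hz]; linear_combination heqZ) (by omega) (by omega) hqbig.2.1 hqbig.2.2
      hqbig.1 (by omega) h1 (hE' q (Or.inr (Or.inl rfl)))
  by_cases hrbig : 1188 * K ^ 4 ≤ r ∧ p ≤ r ∧ q ≤ r
  · exact large (K := K) (B := B) (t := t) (p := r) (q := p) (r := q) (f := h) (g := f) (h := g)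
      (σ := -1) (ρ := 1) hK hB1 hh1 hhK hf1 hfK hg1 hgK hhB hfB hgB (by simp) (by simp)
      (by rw [hx, hz]; exact cxz.symm) (by rw [hy, hz]; exact cyz.symm) (by rw [hx, hy]; exact cxy)
      (by rw [hx, hy, hz]; linear_combination heqZ) (by omega) (by omega) hrbig.2.1 hrbig.2.2
      hrbig.1 (by omega) h1 (hE' r (Or.inr (Or.inr rfl)))
  have hsmall : p ≤ 1188 * K ^ 4 ∧ q ≤ 1188 * K ^ 4 ∧ r ≤ 1188 * K ^ 4 := by omega
  have hreal : ∀ {P : ℤ[X]}, (∀ i, (P.coeff i).natAbs ≤ B) → ∀ i, |(P.coeff i : ℝ)| ≤ (B : ℝ) := by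
    intro P hP i
    have a1 : ((P.coeff i).natAbs : ℝ) ≤ B := by exact_mod_cast hP i
    rwa [Nat.cast_natAbs, Int.cast_abs] at a1
  have hid := Pool.Agent.Q103.FC.identity (K := K) (t := t) (x := p) (y := q) (z := r)
    (N := 1188 * K ^ 4) (f := f) (g := g) (h := h) (B := (B : ℝ)) hfK hgK hhK (by exact_mod_cast hB1)
    (hreal hfB) (hreal hgB) (hreal hhB) (by omega) (by exact_mod_cast h2) hsmall.1 hsmall.2.1
    hsmall.2.2 (by rw [hx, hy, hz]; exact heqZ)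
  have hm := Pool.Agent.Q103.FC.mason (f := f) (g := g) (h := h) (x := p) (y := q) (z := r) (by omega)
    (by omega) (by omega) (by omega) hg0 hh0 (coprime_polys (t := t) hf0 hfB (by omega)
      (by rw [hx, hy]; exact cxy)) hid
  omega

end Pool.Agent.Helper4.PC
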