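import Mathlib
import Pool.Agent.Helper4.PC.Main

/-!
# Final forms
-/

set_option autoImplicit false

namespace Pool.Agent.Helper4.PC

open Polynomial Finset Filter Topology

/-- absolute values and integers of both signs -/
theorem none_int {K : ℕ} (hK : 1 ≤ K) : ∃ T : ℕ, ∀ t : ℤ, T ≤ t.natAbs → ∀ B : ℕ, 1 ≤ B →
    B ^ LL K ≤ t.natAbs → ∀ f g h : ℤ[X], 1 ≤ f.natDegree → f.natDegree ≤ K → 1 ≤ g.natDegree →
    g.natDegree ≤ K → 1 ≤ h.natDegree → h.natDegree ≤ K → (∀ i, (f.coeff i).natAbs ≤ B) →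
    (∀ i, (g.coeff i).natAbs ≤ B) → (∀ i, (h.coeff i).natAbs ≤ B) →
    ∀ x y z p q r : ℕ, Sol x y z p q r → (f.eval t).natAbs = x → (g.eval t).natAbs = y →
      (h.eval t).natAbs = z → False := by
  obtain ⟨T, hT⟩ := none hK
  refine ⟨T, fun t ht B hB1 hBt f g h hf1 hfK hg1 hgK hh1 hhK hfB hgB hhB x y z p q r hs hx hy hz => ?_⟩
  have key : ∀ P : ℤ[X], 1 ≤ P.natDegree → P.natDegree ≤ K → (∀ i, (P.coeff i).natAbs ≤ B) →
      ∃ Q : ℤ[X], 1 ≤ Q.natDegree ∧ Q.natDegree ≤ K ∧ (∀ i, (Q.coeff i).natAbs ≤ B) ∧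
        Q.eval (t.natAbs : ℤ) = (P.eval t).natAbs := by
    intro P h1 h2 h3
    -- the sign of `t`
    obtain ⟨Q, g1, g2, g3, g4⟩ : ∃ Q : ℤ[X], 1 ≤ Q.natDegree ∧ Q.natDegree ≤ K ∧
        (∀ i, (Q.coeff i).natAbs ≤ B) ∧ Q.eval (t.natAbs : ℤ) = P.eval t := by
      rcases Int.natAbs_eq t with ht' | ht'
      · refine ⟨P, h1, h2, h3, ?_⟩
        rw [← ht']
      · have hd : (C (-1 : ℤ) * X : ℤ[X]).natDegree = 1 := by
          rw [natDegree_C_mul (by norm_num), natDegree_X]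
        refine ⟨P.comp (C (-1) * X), ?_, ?_, ?_, ?_⟩
        · rw [natDegree_comp, hd, mul_one]; exact h1
        · rw [natDegree_comp, hd, mul_one]; exact h2
        · intro i
          rw [comp_C_mul_X_coeff, Int.natAbs_mul, Int.natAbs_pow]
          simpa using h3 i
        · rw [eval_comp, eval_mul, eval_C, eval_X]
          congr 1
          omega
    rcases Int.natAbs_eq (P.eval t) with hp | hp
    · exact ⟨Q, g1, g2, g3, by rw [g4]; exact hp⟩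
    · refine ⟨-Q, by rw [natDegree_neg]; exact g1, by rw [natDegree_neg]; exact g2, ?_, ?_⟩
      · intro i
        rw [coeff_neg, Int.natAbs_neg]
        exact g3 i
      · rw [eval_neg, g4]
        omega
  obtain ⟨f', f1, f2, f3, f4⟩ := key f hf1 hfK hfB
  obtain ⟨g', g1, g2, g3, g4⟩ := key g hg1 hgK hgB
  obtain ⟨h', h1, h2, h3, h4⟩ := key h hh1 hhK hhB
  exact hT t.natAbs ht B hB1 hBt f' g' h' f1 f2 g1 g2 h1 h2 f3 g3 h3 x y z p q r hs
    (by rw [f4, hx]) (by rw [g4, hy]) (by rw [h4, hz])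

/-- a nonconstant integer polynomial of degree at most `K` with coefficients at most `H` -/
def Sm (K : ℕ) (H : ℝ) (f : ℤ[X]) : Prop :=
  0 < f.natDegree ∧ f.natDegree ≤ K ∧ ∀ i, |(f.coeff i : ℝ)| ≤ H

theorem uniform (K : ℕ) : ∃ δ : ℝ, 0 < δ ∧ ∀ H : ℝ, {v : ℕ × ℕ × ℕ | ∃ (t : ℤ) (f g h : ℤ[X])
    (x y z p q r : ℕ), Sol x y z p q r ∧ Sm K (max H (|(t : ℝ)| ^ δ)) f ∧
      Sm K (max H (|(t : ℝ)| ^ δ)) g ∧ Sm K (max H (|(t : ℝ)| ^ δ)) h ∧ |f.eval t| = x ∧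
      |g.eval t| = y ∧ |h.eval t| = z ∧ v = (x ^ p, y ^ q, z ^ r)}.Finite := by
  rcases Nat.eq_zero_or_pos K with hK | hK
  · refine ⟨1, one_pos, fun H => Set.Finite.subset Set.finite_empty ?_⟩
    rintro v ⟨t, f, g, h, x, y, z, p, q, r, hs, hf, -⟩
    obtain ⟨h1, h2, -⟩ := hf
    omega
  obtain ⟨T, hT⟩ := none_int (K := K) hK
  have hL : 0 < LL K := by
    rw [LL]
    positivity
  have hLR : (0 : ℝ) < LL K := by exact_mod_cast hL
  refine ⟨1 / (LL K : ℝ), by positivity, fun H => ?_⟩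
  obtain ⟨B₀, hB₀⟩ : ∃ B₀ : ℕ, B₀ = ⌈H⌉₊ + 1 := ⟨_, rfl⟩
  obtain ⟨U, hU⟩ : ∃ U : ℕ, U = T + B₀ ^ LL K + 1 := ⟨_, rfl⟩
  have hHB : H ≤ (B₀ : ℝ) := by
    have := Nat.le_ceil H
    rw [hB₀]
    push_cast
    linarith
  refine (finite_of_bases ((K + 1) * (B₀ + U) * U ^ K)).subset ?_
  rintro v ⟨t, f, g, h, x, y, z, p, q, r, hs, hf, hg, hh, hx, hy, hz, rfl⟩
  have hnat : ∀ {P : ℤ[X]} {w : ℕ}, |P.eval t| = (w : ℤ) → (P.eval t).natAbs = w := by
    intro P w hw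
    rw [Int.abs_eq_natAbs] at hw
    exact_mod_cast hw
  have hta : |(t : ℝ)| = (t.natAbs : ℕ) := by rw [Nat.cast_natAbs, Int.cast_abs]
  rw [hta] at hf hg hh
  by_cases hbig : U ≤ t.natAbs
  · exfalso
    have ht1 : 1 ≤ t.natAbs := by omega
    obtain ⟨B, hB⟩ : ∃ B : ℕ, B = ⌊((t.natAbs : ℕ) : ℝ) ^ (1 / (LL K : ℝ))⌋₊ := ⟨_, rfl⟩
    have htR : (1 : ℝ) ≤ ((t.natAbs : ℕ) : ℝ) := by exact_mod_cast ht1
    have hB1 : 1 ≤ B := by
      rw [hB, Nat.one_le_floor_iff]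
      exact Real.one_le_rpow htR (by positivity)
    have hBle : (B : ℝ) ≤ ((t.natAbs : ℕ) : ℝ) ^ (1 / (LL K : ℝ)) := by
      rw [hB]
      exact Nat.floor_le (by positivity)
    have hBt : B ^ LL K ≤ t.natAbs := by
      have h1 : (B : ℝ) ^ LL K ≤ (((t.natAbs : ℕ) : ℝ) ^ (1 / (LL K : ℝ))) ^ LL K :=
        pow_le_pow_left₀ (by positivity) hBle _
      rw [← Real.rpow_natCast (((t.natAbs : ℕ) : ℝ) ^ (1 / (LL K : ℝ))), ← Real.rpow_mul (by positivity),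
        one_div_mul_cancel hLR.ne', Real.rpow_one] at h1
      exact_mod_cast h1
    have hHt : max H (((t.natAbs : ℕ) : ℝ) ^ (1 / (LL K : ℝ))) ≤
        ((t.natAbs : ℕ) : ℝ) ^ (1 / (LL K : ℝ)) := by
      refine max_le (hHB.trans ?_) le_rfl
      have h1 : ((B₀ : ℝ) ^ LL K) ^ (1 / (LL K : ℝ)) ≤ ((t.natAbs : ℕ) : ℝ) ^ (1 / (LL K : ℝ)) := by
        refine Real.rpow_le_rpow (by positivity) ?_ (by positivity)
        exact_mod_cast (by omega : B₀ ^ LL K ≤ t.natAbs)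
      rwa [← Real.rpow_natCast (B₀ : ℝ), ← Real.rpow_mul (by positivity),
        mul_one_div_cancel hLR.ne', Real.rpow_one] at h1
    have hco : ∀ {P : ℤ[X]}, Sm K (max H (((t.natAbs : ℕ) : ℝ) ^ (1 / (LL K : ℝ)))) P →
        ∀ i, (P.coeff i).natAbs ≤ B := by
      intro P hP i
      rw [hB]
      apply Nat.le_floor
      have := (hP.2.2 i).trans hHt
      rwa [Nat.cast_natAbs, Int.cast_abs]
    exact hT t (by omega) B hB1 hBt f g h hf.1 hf.2.1 hg.1 hg.2.1 hh.1 hh.2.1 (hco hf) (hco hg)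
      (hco hh) x y z p q r hs (hnat hx) (hnat hy) (hnat hz)
  · have hle : ∀ {P : ℤ[X]} {w : ℕ}, Sm K (max H (((t.natAbs : ℕ) : ℝ) ^ (1 / (LL K : ℝ)))) P →
        |P.eval t| = (w : ℤ) → w ≤ (K + 1) * (B₀ + U) * U ^ K := by
      intro P w hP hw
      rw [← hnat hw]
      refine (natAbs_eval_le P (T := U) (by omega) (by omega) hP.2.1).trans ?_
      refine Nat.mul_le_mul_right _ (l1_le_of_coeff hP.2.1 fun i => ?_)
      have h1 : max H (((t.natAbs : ℕ) : ℝ) ^ (1 / (LL K : ℝ))) ≤ ((B₀ + U : ℕ) : ℝ) := by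
        push_cast
        refine max_le (hHB.trans (by
          have : (0 : ℝ) ≤ U := by positivity
          linarith)) ?_
        have h2 : ((t.natAbs : ℕ) : ℝ) ^ (1 / (LL K : ℝ)) ≤ (U : ℝ) ^ (1 / (LL K : ℝ)) := by
          refine Real.rpow_le_rpow (by positivity) ?_ (by positivity)
          exact_mod_cast (by omega : t.natAbs ≤ U)
        have h3 : (U : ℝ) ^ (1 / (LL K : ℝ)) ≤ (U : ℝ) ^ (1 : ℝ) := by
          refine Real.rpow_le_rpow_of_exponent_le ?_ ?_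
          · exact_mod_cast (by omega : 1 ≤ U)
          · rw [div_le_one hLR]
            exact_mod_cast hL
        rw [Real.rpow_one] at h3
        have : (0 : ℝ) ≤ B₀ := by positivity
        linarith
      have h2 := (hP.2.2 i).trans h1
      have h3 : (((P.coeff i).natAbs : ℕ) : ℝ) ≤ ((B₀ + U : ℕ) : ℝ) := by
        rwa [Nat.cast_natAbs, Int.cast_abs]
      exact_mod_cast h3
    exact ⟨x, y, z, p, q, r, hs, hle hf hx, hle hg hy, hle hh hz, rfl⟩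

/-- integer polynomials and integer parameters: the pairs of a parameter and a value triple -/
theorem curve_int (f g h : ℤ[X]) (hf : 0 < f.natDegree) (hg : 0 < g.natDegree)
    (hh : 0 < h.natDegree) : {s : ℤ × (ℕ × ℕ × ℕ) | ∃ x y z p q r : ℕ, Sol x y z p q r ∧
      |f.eval s.1| = x ∧ |g.eval s.1| = y ∧ |h.eval s.1| = z ∧
      s.2 = (x ^ p, y ^ q, z ^ r)}.Finite := by
  obtain ⟨K, hK⟩ : ∃ K, K = max f.natDegree (max g.natDegree h.natDegree) := ⟨_, rfl⟩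
  obtain ⟨B, hB⟩ : ∃ B, B = 1 + l1 f + l1 g + l1 h := ⟨_, rfl⟩
  have hfK : f.natDegree ≤ K := by omega
  have hgK : g.natDegree ≤ K := by omega
  have hhK : h.natDegree ≤ K := by omega
  obtain ⟨T, hT⟩ := none_int (K := K) (by omega)
  obtain ⟨U, hU⟩ : ∃ U, U = T + B ^ LL K + 1 := ⟨_, rfl⟩
  have hnat : ∀ {P : ℤ[X]} {t : ℤ} {w : ℕ}, |P.eval t| = (w : ℤ) → (P.eval t).natAbs = w := by
    intro P t w hw
    rw [Int.abs_eq_natAbs] at hw
    exact_mod_cast hw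
  refine ((Set.finite_Icc (-(U : ℤ)) U).prod (finite_of_bases (B * U ^ K))).subset ?_
  rintro ⟨t, v⟩ ⟨x, y, z, p, q, r, hs, hx, hy, hz, hv⟩
  simp only at hx hy hz hv
  have hsmall : t.natAbs < U := by
    by_contra hcon
    push Not at hcon
    refine hT t (by omega) B (by omega) (by omega) f g h hf hfK hg hgK hh hhK ?_ ?_ ?_ x y z p q r hs
      (hnat hx) (hnat hy) (hnat hz)
    · intro i; have := coeff_le_l1 f i; omega
    · intro i; have := coeff_le_l1 g i; omega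
    · intro i; have := coeff_le_l1 h i; omega
  have hle : ∀ {P : ℤ[X]} {w : ℕ}, P.natDegree ≤ K → l1 P ≤ B → |P.eval t| = (w : ℤ) →
      w ≤ B * U ^ K := by
    intro P w hPK hPB hw
    rw [← hnat hw]
    exact (natAbs_eval_le P (T := U) (by omega) (by omega) hPK).trans (Nat.mul_le_mul_right _ hPB)
  refine ⟨?_, x, y, z, p, q, r, hs, hle hfK (by omega) hx, hle hgK (by omega) hy,
    hle hhK (by omega) hz, hv⟩
  rw [Set.mem_Icc]
  omega

end Pool.Agent.Helper4.PC
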